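import Mathlib

set_option autoImplicit false

open MeasureTheory Filter Complex
open scoped Topology Real NNReal ENNReal ComplexConjugate

namespace Pool.Agent.SLE

noncomputable section

namespace NBCir

/-- Point of the unit circle. -/
def ec (v : ℝ) : ℂ := Complex.exp (v * I)

theorem ec_cont : Continuous ec := by
  unfold ec
  fun_prop

theorem ec_norm (v : ℝ) : ‖ec v‖ = 1 := Complex.norm_exp_ofReal_mul_I v

theorem ec_deriv (v : ℝ) : HasDerivAt ec (ec v * I) v := by
  have h1 : HasDerivAt (fun x : ℝ => (x : ℂ) * I) (1 * I) v :=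
    (Complex.ofRealCLM.hasDerivAt (x := v)).mul_const I
  have h2 := h1.cexp
  rw [one_mul] at h2
  exact h2

/-- Orthogonality. -/
theorem orth (n m : ℕ) : ∫ v in (0 : ℝ)..(2 * π), ec v ^ n * conj (ec v ^ m) =
    if n = m then (2 * π : ℂ) else 0 := by
  have h1 : ∀ v : ℝ, ec v ^ n * conj (ec v ^ m) =
      Complex.exp ((((n : ℝ) - m : ℝ) : ℂ) * I * v) := by
    intro v
    unfold ec
    rw [map_pow, ← Complex.exp_conj, ← Complex.exp_nat_mul, ← Complex.exp_nat_mul,
      ← Complex.exp_add]
    congr 1
    simp only [map_mul, conj_ofReal, conj_I]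
    push_cast
    ring
  simp only [h1]
  split_ifs with h
  · subst h
    simp
  · have hne : (((n : ℝ) - m : ℝ) : ℂ) * I ≠ 0 := by
      refine mul_ne_zero ?_ I_ne_zero
      rw [Complex.ofReal_ne_zero, sub_ne_zero]
      exact_mod_cast h
    rw [integral_exp_mul_complex hne]
    have h2 : Complex.exp ((((n : ℝ) - m : ℝ) : ℂ) * I * ((2 * π : ℝ) : ℂ)) = 1 := by
      rw [Complex.exp_eq_one_iff]
      refine ⟨(n : ℤ) - m, ?_⟩
      push_cast
      ring
    rw [h2]
    simp

/-- The coefficients of a holomorphic function on the unit circle. -/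
theorem coeff {u : ℝ → ℂ} {g : ℕ → ℂ} (hg : Summable fun n => ‖g n‖)
    (hu : ∀ v, HasSum (fun n => g n * ec v ^ n) (u v)) (m : ℕ) :
    ∫ v in (0 : ℝ)..(2 * π), u v * conj (ec v ^ m) = 2 * π * g m := by
  have h := intervalIntegral.hasSum_integral_of_dominated_convergence (μ := volume) (a := 0)
    (b := 2 * π) (F := fun n v => g n * ec v ^ n * conj (ec v ^ m))
    (f := fun v => u v * conj (ec v ^ m)) (fun n _ => ‖g n‖) ?_ ?_ ?_ ?_ ?_
  · have h2 : ∀ n, ∫ v in (0 : ℝ)..(2 * π), g n * ec v ^ n * conj (ec v ^ m) =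
        if n = m then 2 * π * g m else 0 := by
      intro n
      have h3 : ∀ v, g n * ec v ^ n * conj (ec v ^ m) = g n * (ec v ^ n * conj (ec v ^ m)) :=
        fun v => by ring
      simp only [h3]
      rw [intervalIntegral.integral_const_mul, orth]
      split_ifs with h
      · rw [h]
        ring
      · ring
    simp only [h2] at h
    exact (h.unique (hasSum_ite_eq m (2 * π * g m)))
  · intro n
    refine Continuous.aestronglyMeasurable ?_
    exact (continuous_const.mul (ec_cont.pow n)).mul
      (Complex.continuous_conj.comp (ec_cont.pow m))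
  · intro n
    refine Filter.Eventually.of_forall fun v _ => ?_
    simp [ec_norm]
  · exact Filter.Eventually.of_forall fun v _ => hg
  · exact intervalIntegrable_const
  · exact Filter.Eventually.of_forall fun v _ => (hu v).mul_right _

/-- The coefficients of the angular derivative. -/
theorem coeff' {u K : ℝ → ℂ} {g : ℕ → ℂ} (hg : Summable fun n => ‖g n‖)
    (hu : ∀ v, HasSum (fun n => g n * ec v ^ n) (u v)) (hK : Continuous K)
    (hd : ∀ v, HasDerivAt u (K v * I) v) (hper : u (2 * π) = u 0) (m : ℕ) :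
    ∫ v in (0 : ℝ)..(2 * π), K v * conj (ec v ^ m) = m * (2 * π * g m) := by
  have h1 : ∀ v, HasDerivAt (fun v => conj (ec v ^ m)) (conj (m * ec v ^ m * I)) v := by
    intro v
    have h := (ec_deriv v).pow m
    have h2 : HasDerivAt (fun v => conj (ec v ^ m))
      (conj (↑m * ec v ^ (m - 1) * (ec v * I))) v := HasDerivAt.star h
    refine h2.congr_deriv ?_
    congr 1
    rcases Nat.eq_zero_or_pos m with h0 | h0
    · subst h0
      simp
    · have h3 : ec v ^ m = ec v ^ (m - 1) * ec v := by
        rw [← pow_succ, Nat.sub_add_cancel h0]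
      rw [h3]
      ring
  have hcu : Continuous u := continuous_iff_continuousAt.2 fun v => (hd v).continuousAt
  have h2 := intervalIntegral.integral_mul_deriv_eq_deriv_mul (a := 0) (b := 2 * π)
    (u := fun v => conj (ec v ^ m)) (v := u) (u' := fun v => conj (m * ec v ^ m * I))
    (v' := fun v => K v * I) (fun v _ => h1 v) (fun v _ => hd v) ?_ ?_
  · have hec : ec (2 * π) = ec 0 := by
      unfold ec
      rw [Complex.exp_eq_exp_iff_exists_int]
      exact ⟨1, by push_cast; ring⟩
    simp only [hper, hec, sub_self, zero_sub] at h2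
    have h3 := coeff hg hu m
    have h4 : (∫ v in (0 : ℝ)..(2 * π), conj (ec v ^ m) * (K v * I)) =
        I * ∫ v in (0 : ℝ)..(2 * π), K v * conj (ec v ^ m) := by
      rw [← intervalIntegral.integral_const_mul]
      apply intervalIntegral.integral_congr
      intro v _
      change conj (ec v ^ m) * (K v * I) = I * (K v * conj (ec v ^ m))
      ring
    have h5 : (∫ v in (0 : ℝ)..(2 * π), conj (m * ec v ^ m * I) * u v) =
        -(m * I) * ∫ v in (0 : ℝ)..(2 * π), u v * conj (ec v ^ m) := by
      rw [← intervalIntegral.integral_const_mul]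
      apply intervalIntegral.integral_congr
      intro v _
      change conj (m * ec v ^ m * I) * u v = -(m * I) * (u v * conj (ec v ^ m))
      simp only [map_mul, conj_I, map_natCast]
      ring
    rw [h4, h5, h3] at h2
    have h6 : I * (∫ v in (0 : ℝ)..(2 * π), K v * conj (ec v ^ m)) =
        I * (m * (2 * π * g m)) := by
      rw [h2]
      ring
    exact mul_left_cancel₀ I_ne_zero h6
  · refine Continuous.intervalIntegrable ?_ _ _
    exact Complex.continuous_conj.comp
      ((continuous_const.mul (ec_cont.pow m)).mul continuous_const)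
  · exact (hK.mul continuous_const).intervalIntegrable _ _

/-- The Dirichlet form. -/
theorem diri {u K : ℝ → ℂ} {g : ℕ → ℂ} (hg : Summable fun n => ‖g n‖)
    (hu : ∀ v, HasSum (fun n => g n * ec v ^ n) (u v)) (hK : Continuous K)
    (hd : ∀ v, HasDerivAt u (K v * I) v) (hper : u (2 * π) = u 0) :
    HasSum (fun n : ℕ => (n : ℝ) * (2 * π * ‖g n‖ ^ 2))
      (∫ v in (0 : ℝ)..(2 * π), (K v * conj (u v)).re) := by
  have hcu : Continuous u := continuous_iff_continuousAt.2 fun v => (hd v).continuousAt
  have h := intervalIntegral.hasSum_integral_of_dominated_convergence (μ := volume) (a := 0)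
    (b := 2 * π) (F := fun n v => K v * conj (g n * ec v ^ n))
    (f := fun v => K v * conj (u v)) (fun n v => ‖K v‖ * ‖g n‖) ?_ ?_ ?_ ?_ ?_
  · have h2 : ∀ n : ℕ, ∫ v in (0 : ℝ)..(2 * π), K v * conj (g n * ec v ^ n) =
        (((n : ℝ) * (2 * π * ‖g n‖ ^ 2) : ℝ) : ℂ) := by
      intro n
      have h3 : ∀ v, K v * conj (g n * ec v ^ n) = conj (g n) * (K v * conj (ec v ^ n)) :=
        fun v => by rw [map_mul]; ring
      simp only [h3]
      rw [intervalIntegral.integral_const_mul, coeff' hg hu hK hd hper]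
      have h4 : (‖g n‖ : ℂ) ^ 2 = conj (g n) * g n := by
        rw [← Complex.ofReal_pow, ← Complex.normSq_eq_norm_sq, mul_comm, Complex.mul_conj]
      push_cast
      rw [h4]
      ring
    simp only [h2] at h
    have h5 := Complex.hasSum_re h
    simp only [Complex.ofReal_re] at h5
    have h6 : (∫ v in (0 : ℝ)..(2 * π), K v * conj (u v)).re =
        ∫ v in (0 : ℝ)..(2 * π), (K v * conj (u v)).re := by
      have hc : Continuous fun v => K v * conj (u v) :=
        hK.mul (Complex.continuous_conj.comp hcu)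
      exact (Complex.reCLM.intervalIntegral_comp_comm (hc.intervalIntegrable 0 (2 * π))).symm
    rw [h6] at h5
    exact h5
  · intro n
    refine Continuous.aestronglyMeasurable ?_
    exact hK.mul (Complex.continuous_conj.comp (continuous_const.mul (ec_cont.pow n)))
  · intro n
    refine Filter.Eventually.of_forall fun v _ => ?_
    simp [ec_norm]
  · exact Filter.Eventually.of_forall fun v _ => hg.mul_left _
  · have h1 : (fun v => ∑' n, ‖K v‖ * ‖g n‖) = fun v => ‖K v‖ * ∑' n, ‖g n‖ := by
      funext v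
      rw [tsum_mul_left]
    rw [h1]
    exact (hK.norm.mul continuous_const).intervalIntegrable _ _
  · refine Filter.Eventually.of_forall fun v _ => ?_
    have h1 := (hu v).star
    exact (HasSum.mul_left (K v) h1)

end NBCir

open NBCir in
/-- NB-Cir. The Dirichlet form of a holomorphic function on the circle is nonnegative, and
positive if the derivative at the centre does not vanish. -/
theorem circ_pos {G : ℂ → ℂ} {R : ℝ} (hR : 1 < R) (hG : DifferentiableOn ℂ G (Metric.ball 0 R)) :
    0 ≤ (∫ v in (0 : ℝ)..(2 * π), (ec v * deriv G (ec v) * conj (G (ec v))).re) ∧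
      (deriv G 0 ≠ 0 →
        0 < ∫ v in (0 : ℝ)..(2 * π), (ec v * deriv G (ec v) * conj (G (ec v))).re) := by
  obtain ⟨R', hR1, hR2⟩ := exists_between hR
  obtain ⟨r, hr⟩ : ∃ r : ℝ≥0, (r : ℝ) = R' := ⟨⟨R', by linarith⟩, rfl⟩
  have hr0 : 0 < r := by
    have h : (0 : ℝ) < r := by rw [hr]; linarith
    exact_mod_cast h
  have hsub : Metric.closedBall (0 : ℂ) r ⊆ Metric.ball 0 R := by
    rw [hr]
    exact Metric.closedBall_subset_ball hR2
  have hp := (hG.mono hsub).hasFPowerSeriesOnBall hr0
  obtain ⟨p, hpe⟩ : ∃ p, p = cauchyPowerSeries G 0 r := ⟨_, rfl⟩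
  rw [← hpe] at hp
  have h1r : ((1 : ℝ≥0) : ℝ≥0∞) < p.radius := by
    refine lt_of_lt_of_le ?_ hp.r_le
    have h : (1 : ℝ≥0) < r := by
      rw [← NNReal.coe_lt_coe, hr]
      exact hR1
    exact_mod_cast h
  have hg : Summable fun n => ‖p.coeff n‖ := by
    have h := p.summable_norm_mul_pow h1r
    simp only [NNReal.coe_one, one_pow, mul_one] at h
    refine h.of_nonneg_of_le (fun _ => norm_nonneg _) fun n => ?_
    rw [FormalMultilinearSeries.norm_apply_eq_norm_coef]
  have hmem : ∀ v, ec v ∈ Metric.ball (0 : ℂ) R := fun v => by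
    rw [mem_ball_zero_iff, ec_norm]
    exact hR
  have hu : ∀ v, HasSum (fun n => p.coeff n * ec v ^ n) (G (ec v)) := by
    intro v
    have hm : ec v ∈ Metric.eball (0 : ℂ) r := by
      have h : (1 : ℝ≥0) < r := by
        rw [← NNReal.coe_lt_coe, hr]
        exact hR1
      rw [mem_eball_zero_iff, ← ofReal_norm, ec_norm]
      simpa using h
    have h := hp.hasSum hm
    rw [zero_add] at h
    refine h.congr_fun ?_
    intro n
    rw [FormalMultilinearSeries.apply_eq_pow_smul_coeff, smul_eq_mul, mul_comm]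
  have hdiff : ∀ z ∈ Metric.ball (0 : ℂ) R, HasDerivAt G (deriv G z) z := fun z hz =>
    (hG.differentiableAt (Metric.isOpen_ball.mem_nhds hz)).hasDerivAt
  have hd : ∀ v, HasDerivAt (fun v => G (ec v)) (ec v * deriv G (ec v) * I) v := by
    intro v
    have h := (hdiff _ (hmem v)).comp v (ec_deriv v)
    refine h.congr_deriv ?_
    ring
  have hdc : ContinuousOn (deriv G) (Metric.ball (0 : ℂ) R) :=
    (hG.deriv Metric.isOpen_ball).continuousOn
  have hK : Continuous fun v => ec v * deriv G (ec v) := by
    refine ec_cont.mul ?_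
    exact hdc.comp_continuous ec_cont hmem
  have hper : G (ec (2 * π)) = G (ec 0) := by
    congr 1
    unfold ec
    rw [Complex.exp_eq_exp_iff_exists_int]
    exact ⟨1, by push_cast; ring⟩
  have hs := diri hg hu hK hd hper
  have hnn : ∀ n : ℕ, 0 ≤ (n : ℝ) * (2 * π * ‖p.coeff n‖ ^ 2) := fun n => by positivity
  refine ⟨hs.nonneg hnn, fun h1 => ?_⟩
  have h2 : deriv G 0 = p.coeff 1 := by
    have h := hp.hasFPowerSeriesAt.deriv
    rw [h]
    rfl
  have h3 : 0 < ((1 : ℕ) : ℝ) * (2 * π * ‖p.coeff 1‖ ^ 2) := by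
    rw [← h2]
    have := norm_pos_iff.2 h1
    positivity
  exact lt_of_lt_of_le h3 (le_hasSum hs 1 fun n _ => hnn n)

end

end Pool.Agent.SLE
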