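import Pool.Agent.Lib.MP_c17912_pr_TR.SGN

set_option autoImplicit false

open MeasureTheory Filter
open scoped Topology Real

namespace Pool.Agent.SLE

noncomputable section

/-- NB-Red1. The mean logarithmic drift in the isotropic coordinates: the correction is the
generator applied to `log V / 2`. -/
theorem Lam_alt {a b c σ : ℝ} (ha : 0 < a) (hb : 0 < b) (hc : c ^ 2 < a * b)
    (hσ : σ * σ = 1) :
    ∫ θ in (0 : ℝ)..π, (2 * Real.cos (2 * θ) +
        σ * (((a - b) * Real.cos (2 * θ) + 2 * c * Real.sin (2 * θ)) / 2)) * dens a b c σ θ =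
      ∫ θ in (0 : ℝ)..π, ((a + b) * Real.cos (2 * θ) - (a - b)) / Vth a b c θ *
        dens a b c σ θ := by
  obtain ⟨hs, hp, hpos, κ, hκ⟩ := dens_props ha hb hc σ
  obtain ⟨f, hf⟩ : ∃ f : ℝ → ℝ, f = dens a b c σ := ⟨_, rfl⟩
  rw [← hf] at hs hp hpos hκ ⊢
  have hfc : Continuous f := (hs 0).continuous
  have hVc : Continuous (Vth a b c) := (TRSGN.V_smooth a b c 0).continuous
  have hV0 : ∀ x, Vth a b c x ≠ 0 := fun x => (Vth_pos ha hb hc x).ne'
  have hc1 : Continuous fun θ => ((a + b) * Real.cos (2 * θ) - (a - b)) / Vth a b c θ * f θ := by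
    refine Continuous.mul (Continuous.div (by fun_prop) hVc hV0) hfc
  have hc2 : Continuous fun θ => (2 * Real.cos (2 * θ) +
      σ * (((a - b) * Real.cos (2 * θ) + 2 * c * Real.sin (2 * θ)) / 2)) * f θ := by
    refine Continuous.mul (by fun_prop) hfc
  rw [← sub_eq_zero, ← neg_eq_zero, neg_sub,
    ← intervalIntegral.integral_sub (hc1.intervalIntegrable _ _) (hc2.intervalIntegrable _ _)]
  obtain ⟨Φ, hΦ⟩ : ∃ Φ : ℝ → ℝ, Φ = fun θ => -(σ / 4) *
      (((a - b) * Real.sin (2 * θ) - 2 * c * Real.cos (2 * θ)) * f θ) +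
        σ * κ / 2 * Real.log (Vth a b c θ) := ⟨_, rfl⟩
  have hd : ∀ x, HasDerivAt Φ (((a + b) * Real.cos (2 * x) - (a - b)) / Vth a b c x * f x -
      (2 * Real.cos (2 * x) +
      σ * (((a - b) * Real.cos (2 * x) + 2 * c * Real.sin (2 * x)) / 2)) * f x) x := by
    intro x
    have h0 : HasDerivAt (fun x : ℝ => 2 * x) 2 x := by
      simpa using (hasDerivAt_id x).const_mul (2 : ℝ)
    have hfx := TRSGN.hd hs x
    have h1 := (h0.sin.const_mul (a - b)).sub (h0.cos.const_mul (2 * c))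
    have h2 := ((h1.mul hfx).const_mul (-(σ / 4))).add
      (((TRSGN.V_deriv a b c x).log (hV0 x)).const_mul (σ * κ / 2))
    rw [hΦ]
    refine h2.congr_deriv ?_
    have hk := hκ x
    have hV := hV0 x
    have hVd : Vth a b c x = (a + b) / 2 -
        ((a - b) * Real.cos (2 * x) + 2 * c * Real.sin (2 * x)) / 2 := by
      unfold Vth
      rw [Real.sin_two_mul, Real.cos_two_mul']
      have := Real.sin_sq_add_cos_sq x
      linear_combination (a + b) / 2 * this
    have hsc := Real.sin_sq_add_cos_sq (2 * x)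
    obtain ⟨V, hVe⟩ : ∃ V, V = Vth a b c x := ⟨_, rfl⟩
    rw [← hVe] at hk hV hVd ⊢
    obtain ⟨s, hse⟩ : ∃ s, s = Real.sin (2 * x) := ⟨_, rfl⟩
    obtain ⟨t, hte⟩ : ∃ t, t = Real.cos (2 * x) := ⟨_, rfl⟩
    obtain ⟨g, hge⟩ : ∃ g, g = deriv f x := ⟨_, rfl⟩
    obtain ⟨F, hFe⟩ : ∃ F, F = f x := ⟨_, rfl⟩
    rw [← hse, ← hte] at hVd hsc
    rw [← hse, ← hge, ← hFe] at hk
    simp only [Pi.sub_apply, ← hse, ← hte, ← hge, ← hFe]
    have e1 : ((a + b) * t - (a - b)) / V * F - 2 * t * F =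
        -(s * F) * (((a - b) * s - 2 * c * t) / V) := by
      field_simp
      rw [hVd]
      linear_combination ((a - b) * F) * hsc
    have e2 : s * F = σ * (V * g / 4 - κ / 2) := by
      have e3 : κ = V / 2 * g - σ * 2 * s * F := hk.symm
      rw [e3]
      linear_combination (-s * F) * hσ
    have e4 : ((a + b) * t - (a - b)) / V * F - 2 * t * F =
        -(σ * (V * g / 4 - κ / 2)) * (((a - b) * s - 2 * c * t) / V) := by
      rw [e1, e2]
    have e5 : V * (((a - b) * s - 2 * c * t) / V) = (a - b) * s - 2 * c * t := by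
      field_simp
    linear_combination -e4 + (σ * g / 4) * e5
  have hint : ∫ x in (0 : ℝ)..π, (((a + b) * Real.cos (2 * x) - (a - b)) / Vth a b c x * f x -
      (2 * Real.cos (2 * x) +
      σ * (((a - b) * Real.cos (2 * x) + 2 * c * Real.sin (2 * x)) / 2)) * f x) = Φ π - Φ 0 :=
    intervalIntegral.integral_eq_sub_of_hasDerivAt (fun x _ => hd x)
      ((hc1.sub hc2).intervalIntegrable _ _)
  rw [hint, hΦ]
  have h1 := hp 0
  have h2 := TRSGN.V_per a b c 0
  rw [zero_add] at h1 h2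
  simp only [h1, h2, Real.sin_two_pi, Real.cos_two_pi, mul_zero, Real.sin_zero, Real.cos_zero,
    sub_self]

/-- NB-Red2. Both drifts as double integrals. -/
theorem Lam_fwd {a b c : ℝ} (ha : 0 < a) (hb : 0 < b) (hc : c ^ 2 < a * b) :
    Lam a b c = ∫ θ in (0 : ℝ)..π, ((a + b) * Real.cos (2 * θ) - (a - b)) / Vth a b c θ *
        dens a b c (-1) θ := by
  rw [← Lam_alt ha hb hc (by norm_num)]
  unfold Lam
  apply intervalIntegral.integral_congr
  intro x _
  change H1 a b c x * dens a b c (-1) x = _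
  unfold H1
  ring

/-- NB-Red3. -/
theorem Lam_bwd {a b c : ℝ} (ha : 0 < a) (hb : 0 < b) (hc : c ^ 2 < a * b) :
    -Lam b a (-c) = ∫ θ in (0 : ℝ)..π, ((a + b) * Real.cos (2 * θ) - (a - b)) / Vth a b c θ *
        dens a b c 1 θ := by
  rw [← Lam_alt ha hb hc (by norm_num), ← Lam_back ha hb hc]
  apply intervalIntegral.integral_congr
  intro x _
  change (2 * Real.cos (2 * x) + ((a - b) * Real.cos (2 * x) + 2 * c * Real.sin (2 * x)) / 2) *
    dens a b c 1 x = _
  ring

end

end Pool.Agent.SLE
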