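import Pool.Agent.Lib.MP_c17912_pr_NB.Cir
import Pool.Agent.Lib.MP_c17912_pr_NB.Red

set_option autoImplicit false

open MeasureTheory Filter Complex
open scoped Topology Real ComplexConjugate

namespace Pool.Agent.SLE

noncomputable section

namespace NBCor

open NBCir

/-- Denominator of the Moebius transformation. -/
def mm (r v : ℝ) : ℂ := 1 + r * ec v

/-- Its logarithm. -/
def AA (r v : ℝ) : ℂ := Complex.log (mm r v)

/-- The angle as a function of the isotropic angle. -/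
def TT (r om v : ℝ) : ℝ := (om + v) / 2 - (AA r v).im

theorem slit {r : ℝ} (hr0 : 0 ≤ r) (hr1 : r < 1) {z : ℂ} (hz : ‖z‖ ≤ 1) :
    1 + (r : ℂ) * z ∈ Complex.slitPlane := by
  left
  have h1 : |z.re| ≤ 1 := (Complex.abs_re_le_norm z).trans hz
  have h2 := (abs_le.1 h1).1
  simp only [Complex.add_re, Complex.one_re, Complex.mul_re, Complex.ofReal_re,
    Complex.ofReal_im, zero_mul, sub_zero]
  nlinarith

theorem mm_slit {r : ℝ} (hr0 : 0 ≤ r) (hr1 : r < 1) (v : ℝ) : mm r v ∈ Complex.slitPlane :=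
  slit hr0 hr1 (ec_norm v).le

theorem mm_ne {r : ℝ} (hr0 : 0 ≤ r) (hr1 : r < 1) (v : ℝ) : mm r v ≠ 0 :=
  Complex.slitPlane_ne_zero (mm_slit hr0 hr1 v)

theorem AA_deriv {r : ℝ} (hr0 : 0 ≤ r) (hr1 : r < 1) (v : ℝ) :
    HasDerivAt (AA r) (r * ec v * I / mm r v) v := by
  have h1 : HasDerivAt (mm r) (r * (ec v * I)) v := ((ec_deriv v).const_mul (r : ℂ)).const_add 1
  have h2 := h1.clog_real (mm_slit hr0 hr1 v)
  refine h2.congr_deriv ?_
  rw [mul_assoc]

theorem AA_cont {r : ℝ} (hr0 : 0 ≤ r) (hr1 : r < 1) : Continuous (AA r) :=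
  continuous_iff_continuousAt.2 fun v => (AA_deriv hr0 hr1 v).continuousAt

theorem ec_per (v : ℝ) : ec (v + 2 * π) = ec v := by
  unfold ec
  rw [Complex.exp_eq_exp_iff_exists_int]
  exact ⟨1, by push_cast; ring⟩

theorem ec_add (v t : ℝ) : ec (v + t) = ec v * ec t := by
  unfold ec
  rw [← Complex.exp_add]
  congr 1
  push_cast
  ring

theorem AA_per (r v : ℝ) : AA r (v + 2 * π) = AA r v := by
  unfold AA mm
  rw [ec_per]

theorem TT_per (r om v : ℝ) : TT r om (v + 2 * π) = TT r om v + π := by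
  unfold TT
  rw [AA_per]
  ring

theorem ec_conj (v : ℝ) : ec v * conj (ec v) = 1 := by
  rw [Complex.mul_conj, Complex.normSq_eq_norm_sq, ec_norm]
  simp

/-- The Moebius transformation. -/
theorem TT_exp {r : ℝ} (hr0 : 0 ≤ r) (hr1 : r < 1) (om v : ℝ) :
    ec (2 * TT r om v) = ec om * (r + (1 - r ^ 2) * ec v / mm r v) := by
  have hm := mm_ne hr0 hr1 v
  have h1 : Complex.exp (AA r v) = mm r v := Complex.exp_log hm
  have h2 : Complex.exp (conj (AA r v)) = conj (mm r v) := by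
    rw [Complex.exp_conj, h1]
  have h3 : ec (2 * TT r om v) = ec om * ec v * (Complex.exp (conj (AA r v)) /
      Complex.exp (AA r v)) := by
    rw [← Complex.exp_sub]
    unfold ec
    rw [← Complex.exp_add, ← Complex.exp_add]
    congr 1
    have h4 : conj (AA r v) - AA r v = -(2 * (AA r v).im * I) := by
      apply Complex.ext
      · simp
      · simp
        ring
    rw [h4]
    unfold TT
    push_cast
    ring
  rw [h3, h1, h2]
  have h5 : conj (mm r v) = 1 + r * conj (ec v) := by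
    unfold mm
    simp
  rw [h5]
  field_simp
  have h6 := ec_conj v
  unfold mm
  linear_combination (ec om * r) * h6

/-- The square of the modulus. -/
theorem mm_sq (r v : ℝ) : normSq (mm r v) = 1 + r ^ 2 + 2 * r * (ec v).re := by
  have h1 : (ec v).re ^ 2 + (ec v).im ^ 2 = 1 := by
    have h := Complex.normSq_eq_norm_sq (ec v)
    rw [ec_norm, Complex.normSq_apply] at h
    nlinarith
  rw [Complex.normSq_apply]
  unfold mm
  simp
  linear_combination r ^ 2 * h1

theorem div_re (r v : ℝ) : (r * ec v / mm r v).re = (r * (ec v).re + r ^ 2) / normSq (mm r v) := by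
  have h1 : (ec v).re ^ 2 + (ec v).im ^ 2 = 1 := by
    have h := Complex.normSq_eq_norm_sq (ec v)
    rw [ec_norm, Complex.normSq_apply] at h
    nlinarith
  rw [Complex.div_re, ← add_div]
  congr 1
  unfold mm
  simp
  linear_combination r ^ 2 * h1

theorem TT_deriv {r : ℝ} (hr0 : 0 ≤ r) (hr1 : r < 1) (om v : ℝ) :
    HasDerivAt (TT r om) ((1 - r ^ 2) / (2 * normSq (mm r v))) v := by
  have h1 := AA_deriv hr0 hr1 v
  have h2 : HasDerivAt (fun v => (AA r v).im) (r * ec v * I / mm r v).im v :=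
    (Complex.imCLM.hasFDerivAt.comp_hasDerivAt v h1)
  have h3 : HasDerivAt (TT r om) (1 / 2 - (r * ec v * I / mm r v).im) v := by
    have h4 : HasDerivAt (fun v : ℝ => (om + v) / 2) (1 / 2) v :=
      ((hasDerivAt_id v).const_add om).div_const 2
    exact h4.sub h2
  refine h3.congr_deriv ?_
  have h5 : (r * ec v * I / mm r v).im = (r * ec v / mm r v).re := by
    rw [show (r : ℂ) * ec v * I / mm r v = I * (r * ec v / mm r v) by ring, Complex.I_mul_im]
  rw [h5, div_re]
  have h6 : normSq (mm r v) ≠ 0 := by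
    rw [Ne, Complex.normSq_eq_zero]
    exact mm_ne hr0 hr1 v
  have h7 := mm_sq r v
  field_simp
  rw [h7]
  ring

/-- The parameters. -/
structure Par (a b c r D om : ℝ) : Prop where
  r0 : 0 < r
  r1 : r < 1
  D0 : 0 < D
  hT : (a + b) * (1 - r ^ 2) = 2 * D * (1 + r ^ 2)
  hd : (a - b) * (1 - r ^ 2) = 4 * r * D * (ec om).re
  hc : 2 * c * (1 - r ^ 2) = 4 * r * D * (ec om).im

theorem Par.VTT {a b c r D om : ℝ} (h : Par a b c r D om) (v : ℝ) :
    Vth a b c (TT r om v) = D * (1 - r ^ 2) / normSq (mm r v) := by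
  have hr := h.r0
  have hr1 := h.r1
  have h1r : 0 < 1 - r ^ 2 := by nlinarith
  have h1 : Vth a b c (TT r om v) = (a + b) / 2 - ((a - b) * (ec (2 * TT r om v)).re +
      2 * c * (ec (2 * TT r om v)).im) / 2 := by
    unfold ec
    rw [Complex.exp_ofReal_mul_I_re, Complex.exp_ofReal_mul_I_im]
    unfold Vth
    rw [Real.sin_two_mul, Real.cos_two_mul']
    have := Real.sin_sq_add_cos_sq (TT r om v)
    linear_combination (a + b) / 2 * this
  have hN : normSq (mm r v) ≠ 0 := by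
    rw [Ne, Complex.normSq_eq_zero]
    exact mm_ne hr.le hr1 v
  have hzz : (ec v).re ^ 2 + (ec v).im ^ 2 = 1 := by
    have h := Complex.normSq_eq_norm_sq (ec v)
    rw [ec_norm, Complex.normSq_apply] at h
    nlinarith
  have hww : (ec om).re ^ 2 + (ec om).im ^ 2 = 1 := by
    have h := Complex.normSq_eq_norm_sq (ec om)
    rw [ec_norm, Complex.normSq_apply] at h
    nlinarith
  have hms := mm_sq r v
  rw [TT_exp hr.le hr1] at h1
  have e1 : ((1 - (r : ℂ) ^ 2) * ec v / mm r v).re =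
      (1 - r ^ 2) * ((ec v).re + r) / normSq (mm r v) := by
    rw [Complex.div_re, ← add_div]
    congr 1
    unfold mm
    simp [← Complex.ofReal_pow]
    linear_combination ((1 - r ^ 2) * r) * hzz
  have e2 : ((1 - (r : ℂ) ^ 2) * ec v / mm r v).im =
      (1 - r ^ 2) * (ec v).im / normSq (mm r v) := by
    rw [Complex.div_im, ← sub_div]
    congr 1
    unfold mm
    simp [← Complex.ofReal_pow]
    ring
  have e3 : (ec om * (r + (1 - r ^ 2) * ec v / mm r v)).re =
      (ec om).re * (r + (1 - r ^ 2) * ((ec v).re + r) / normSq (mm r v)) -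
        (ec om).im * ((1 - r ^ 2) * (ec v).im / normSq (mm r v)) := by
    rw [Complex.mul_re, Complex.add_re, Complex.add_im, e1, e2]
    simp
  have e4 : (ec om * (r + (1 - r ^ 2) * ec v / mm r v)).im =
      (ec om).re * ((1 - r ^ 2) * (ec v).im / normSq (mm r v)) +
        (ec om).im * (r + (1 - r ^ 2) * ((ec v).re + r) / normSq (mm r v)) := by
    rw [Complex.mul_im, Complex.add_re, Complex.add_im, e1, e2]
    simp
  rw [h1, e3, e4]
  apply mul_left_cancel₀ (mul_ne_zero h1r.ne' hN)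
  obtain ⟨N, hNe⟩ : ∃ N, N = normSq (mm r v) := ⟨_, rfl⟩
  rw [← hNe] at hms hN ⊢
  field_simp
  have i1 := h.hT
  have i2 := h.hd
  have i3 := h.hc
  obtain ⟨x, hx⟩ : ∃ x, x = (ec v).re := ⟨_, rfl⟩
  obtain ⟨y, hy⟩ : ∃ y, y = (ec v).im := ⟨_, rfl⟩
  obtain ⟨p, hp⟩ : ∃ p, p = (ec om).re := ⟨_, rfl⟩
  obtain ⟨q, hq⟩ : ∃ q, q = (ec om).im := ⟨_, rfl⟩
  rw [← hx, ← hy] at hzz
  rw [← hp, ← hq] at hww
  rw [← hx] at hms
  rw [← hp] at i2
  rw [← hq] at i3
  rw [← hx, ← hy, ← hp, ← hq]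
  rw [hms]
  apply mul_left_cancel₀ h1r.ne'
  linear_combination (1 + r ^ 2 + 2 * r * x) * i1 -
    (p * (r * (1 + r ^ 2 + 2 * r * x) + (1 - r ^ 2) * (x + r)) - (1 - r ^ 2) * q * y) * i2 -
    ((1 - r ^ 2) * p * y + (r * (1 + r ^ 2 + 2 * r * x) + (1 - r ^ 2) * (x + r)) * q) * i3 -
    4 * r * D * (r * (1 + r ^ 2 + 2 * r * x) + (1 - r ^ 2) * (x + r)) * hww

/-- The exponent in the isotropic coordinate. -/
def lv (a b c r om v : ℝ) : ℝ := TRDNS.LL a b c (TT r om v)

theorem Par.TTd {a b c r D om : ℝ} (h : Par a b c r D om) (v : ℝ) :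
    HasDerivAt (TT r om) (Vth a b c (TT r om v) / (2 * D)) v := by
  refine (TT_deriv h.r0.le h.r1 om v).congr_deriv ?_
  rw [h.VTT]
  have hD := h.D0
  have hN : normSq (mm r v) ≠ 0 := by
    rw [Ne, Complex.normSq_eq_zero]
    exact mm_ne h.r0.le h.r1 v
  field_simp

theorem cos_TT {r : ℝ} (hr0 : 0 ≤ r) (hr1 : r < 1) (om v : ℝ) :
    Real.cos (2 * TT r om v) = (ec om * (r + (1 - r ^ 2) * ec v / mm r v)).re := by
  rw [← TT_exp hr0 hr1]
  unfold ec
  rw [Complex.exp_ofReal_mul_I_re]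

theorem sin_TT {r : ℝ} (hr0 : 0 ≤ r) (hr1 : r < 1) (om v : ℝ) :
    Real.sin (2 * TT r om v) = (ec om * (r + (1 - r ^ 2) * ec v / mm r v)).im := by
  rw [← TT_exp hr0 hr1]
  unfold ec
  rw [Complex.exp_ofReal_mul_I_im]

theorem Par.lld {a b c r D om : ℝ} (ha : 0 < a) (hb : 0 < b) (hc : c ^ 2 < a * b)
    (h : Par a b c r D om) (v : ℝ) :
    HasDerivAt (lv a b c r om) (2 / D * Real.sin (2 * TT r om v)) v := by
  have h1 := TRDNS.LL_deriv ha hb hc (TT r om v)
  have h2 := h1.comp v (h.TTd v)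
  refine h2.congr_deriv ?_
  unfold TRDNS.ff
  have h3 := (Vth_pos ha hb hc (TT r om v)).ne'
  have hD := h.D0
  field_simp
  ring

/-- The explicit formula. -/
theorem Par.ll_eq {a b c r D om : ℝ} (ha : 0 < a) (hb : 0 < b) (hc : c ^ 2 < a * b)
    (h : Par a b c r D om) (v t : ℝ) :
    lv a b c r om (v + t) - lv a b c r om v = 2 / D * (r * (ec om).im * t) +
      2 * (((1 - r ^ 2) / (r * D) : ℝ) * (ec om * (AA r v - AA r (v + t)))).re := by
  have hr := h.r0
  have hD := h.D0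
  obtain ⟨Φ, hΦ⟩ : ∃ Φ : ℝ → ℝ, Φ = fun v => lv a b c r om v - (2 / D * (r * (ec om).im * v) -
      2 * (((1 - r ^ 2) / (r * D) : ℝ) * (ec om * AA r v)).re) := ⟨_, rfl⟩
  have h0 : ∀ v, HasDerivAt Φ 0 v := by
    intro v
    have h1 := h.lld ha hb hc v
    have h2 : HasDerivAt (fun v => ((((1 - r ^ 2) / (r * D) : ℝ) : ℂ) * (ec om * AA r v)).re)
        ((((1 - r ^ 2) / (r * D) : ℝ) : ℂ) * (ec om * (r * ec v * I / mm r v))).re v := by
      have i1 := ((AA_deriv hr.le h.r1 v).const_mul (ec om)).const_mul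
        (((1 - r ^ 2) / (r * D) : ℝ) : ℂ)
      exact Complex.reCLM.hasFDerivAt.comp_hasDerivAt v i1
    have h3 : HasDerivAt (fun v : ℝ => 2 / D * (r * (ec om).im * v))
        (2 / D * (r * (ec om).im * 1)) v :=
      ((hasDerivAt_id v).const_mul (r * (ec om).im)).const_mul (2 / D)
    have h4 := h1.sub (h3.sub (h2.const_mul 2))
    rw [hΦ]
    refine h4.congr_deriv ?_
    rw [sin_TT hr.le h.r1]
    have h5 : (ec om * (r + (1 - r ^ 2) * ec v / mm r v)).im = (ec om).im * r +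
        (1 - r ^ 2) * (ec om * (ec v / mm r v)).im := by
      have : ec om * (r + (1 - r ^ 2) * ec v / mm r v) = ec om * (r : ℝ) +
        ((1 - r ^ 2 : ℝ) : ℂ) * (ec om * (ec v / mm r v)) := by
        push_cast
        ring
      rw [this, Complex.add_im, Complex.im_ofReal_mul, Complex.im_mul_ofReal]
    have h6 : ((((1 - r ^ 2) / (r * D) : ℝ) : ℂ) * (ec om * (r * ec v * I / mm r v))).re =
        -((1 - r ^ 2) / D * (ec om * (ec v / mm r v)).im) := by
      have : (((1 - r ^ 2) / (r * D) : ℝ) : ℂ) * (ec om * (r * ec v * I / mm r v)) =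
          (((1 - r ^ 2) / D : ℝ) : ℂ) * (I * (ec om * (ec v / mm r v))) := by
        have hrc : (r : ℂ) ≠ 0 := Complex.ofReal_ne_zero.2 hr.ne'
        have hDc : (D : ℂ) ≠ 0 := Complex.ofReal_ne_zero.2 hD.ne'
        push_cast
        field_simp
      rw [this, Complex.re_ofReal_mul, Complex.I_mul_re]
      ring
    rw [h5, h6]
    field_simp
    ring
  have h7 : Φ (v + t) = Φ v :=
    is_const_of_deriv_eq_zero (fun x => (h0 x).differentiableAt) (fun x => (h0 x).deriv) _ _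
  rw [hΦ] at h7
  have h8 : (((1 - r ^ 2) / (r * D) : ℝ) * (ec om * (AA r v - AA r (v + t))) : ℂ).re =
      (((1 - r ^ 2) / (r * D) : ℝ) * (ec om * AA r v) : ℂ).re -
        (((1 - r ^ 2) / (r * D) : ℝ) * (ec om * AA r (v + t)) : ℂ).re := by
    rw [← Complex.sub_re]
    congr 1
    ring
  rw [h8]
  simp only at h7
  linarith

/-- NB-Cor. For each fixed separation the integral is positive. -/
theorem Par.inner_pos {a b c r D om : ℝ} (ha : 0 < a) (hb : 0 < b) (hc : c ^ 2 < a * b)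
    (h : Par a b c r D om) (t : ℝ) :
    0 ≤ (∫ v in (0 : ℝ)..(2 * π), (Real.cos (2 * TT r om v) - Real.cos (2 * TT r om (v + t))) *
      Real.exp (lv a b c r om (v + t) - lv a b c r om v)) ∧
    (ec t ≠ 1 → 0 < ∫ v in (0 : ℝ)..(2 * π),
      (Real.cos (2 * TT r om v) - Real.cos (2 * TT r om (v + t))) *
      Real.exp (lv a b c r om (v + t) - lv a b c r om v)) := by
  have hr := h.r0
  have hr1 := h.r1
  have hD := h.D0
  have h1r : 0 < 1 - r ^ 2 := by nlinarith
  have hrc : (r : ℂ) ≠ 0 := Complex.ofReal_ne_zero.2 hr.ne'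
  obtain ⟨κ, hκ⟩ : ∃ κ : ℝ, κ = (1 - r ^ 2) / (r * D) := ⟨_, rfl⟩
  have hκ0 : 0 < κ := by rw [hκ]; positivity
  obtain ⟨G, hG⟩ : ∃ G : ℂ → ℂ, G = fun z => Complex.exp (κ * (ec om *
    (Complex.log (1 + r * z) - Complex.log (1 + r * (z * ec t))))) := ⟨_, rfl⟩
  have hR : 1 < 1 / r := by
    rw [lt_div_iff₀ hr]
    linarith
  have hsl : ∀ z : ℂ, ‖z‖ < 1 / r → 1 + (r : ℂ) * z ∈ Complex.slitPlane := by
    intro z hz
    left
    have h1 : |z.re| ≤ ‖z‖ := Complex.abs_re_le_norm z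
    have h2 := (abs_le.1 h1).1
    rw [lt_div_iff₀ hr] at hz
    simp only [Complex.add_re, Complex.one_re, Complex.mul_re, Complex.ofReal_re,
      Complex.ofReal_im, zero_mul, sub_zero]
    nlinarith
  have hGd : ∀ z : ℂ, ‖z‖ < 1 / r → HasDerivAt G (G z * (κ * (ec om *
      (r / (1 + r * z) - r * ec t / (1 + r * (z * ec t)))))) z := by
    intro z hz
    have hz2 : ‖z * ec t‖ < 1 / r := by
      rw [norm_mul, ec_norm, mul_one]
      exact hz
    have i1 : HasDerivAt (fun z : ℂ => 1 + (r : ℂ) * z) r z := by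
      simpa using ((hasDerivAt_id z).const_mul (r : ℂ)).const_add 1
    have i2 : HasDerivAt (fun z : ℂ => 1 + (r : ℂ) * (z * ec t)) (r * ec t) z := by
      simpa using (((hasDerivAt_id z).mul_const (ec t)).const_mul (r : ℂ)).const_add 1
    have i3 := (((i1.clog (hsl z hz)).sub (i2.clog (hsl _ hz2))).const_mul (ec om)).const_mul
      (κ : ℂ)
    rw [hG]
    exact i3.cexp
  have hGD : DifferentiableOn ℂ G (Metric.ball 0 (1 / r)) := fun z hz =>
    (hGd z (mem_ball_zero_iff.1 hz)).differentiableAt.differentiableWithinAt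
  obtain ⟨C, hC⟩ : ∃ C : ℝ, C = Real.exp (2 / D * (r * (ec om).im * t)) := ⟨_, rfl⟩
  have hC0 : 0 < C := by rw [hC]; exact Real.exp_pos _
  have hlog : ∀ v, Real.exp (lv a b c r om (v + t) - lv a b c r om v) =
      C * ‖G (ec v)‖ ^ 2 := by
    intro v
    rw [h.ll_eq ha hb hc, Real.exp_add, ← hC, hG, ← hκ]
    congr 1
    rw [Complex.norm_exp, ← Real.exp_nat_mul]
    congr 1
    unfold AA mm
    rw [ec_add]
    push_cast
    ring
  have hre : ∀ v, (ec v * deriv G (ec v) * conj (G (ec v))).re =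
      κ * r / (1 - r ^ 2) * (Real.cos (2 * TT r om v) - Real.cos (2 * TT r om (v + t))) *
        ‖G (ec v)‖ ^ 2 := by
    intro v
    have hv : ‖ec v‖ < 1 / r := by rw [ec_norm]; exact hR
    rw [(hGd (ec v) hv).deriv]
    have j1 : ec v * (G (ec v) * (κ * (ec om * (r / (1 + r * ec v) - r * ec t /
        (1 + r * (ec v * ec t)))))) * conj (G (ec v)) =
        ((κ * r * ‖G (ec v)‖ ^ 2 / (1 - r ^ 2) : ℝ) : ℂ) *
          (ec om * (r + (1 - r ^ 2) * ec v / mm r v) -
            ec om * (r + (1 - r ^ 2) * ec (v + t) / mm r (v + t))) := by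
      have j2 : G (ec v) * conj (G (ec v)) = ((‖G (ec v)‖ ^ 2 : ℝ) : ℂ) := by
        rw [Complex.mul_conj, Complex.normSq_eq_norm_sq]
      have j3 : ((1 - r ^ 2 : ℝ) : ℂ) ≠ 0 := Complex.ofReal_ne_zero.2 h1r.ne'
      push_cast at j2 j3
      unfold mm
      rw [ec_add]
      push_cast
      rw [← j2]
      field_simp
      ring
    rw [j1, Complex.re_ofReal_mul, Complex.sub_re, ← cos_TT hr.le hr1, ← cos_TT hr.le hr1]
    ring
  have hint : (∫ v in (0 : ℝ)..(2 * π),
      (Real.cos (2 * TT r om v) - Real.cos (2 * TT r om (v + t))) *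
      Real.exp (lv a b c r om (v + t) - lv a b c r om v)) =
      C * (1 - r ^ 2) / (κ * r) *
      ∫ v in (0 : ℝ)..(2 * π), (ec v * deriv G (ec v) * conj (G (ec v))).re := by
    rw [← intervalIntegral.integral_const_mul]
    apply intervalIntegral.integral_congr
    intro v _
    change (Real.cos (2 * TT r om v) - Real.cos (2 * TT r om (v + t))) *
      Real.exp (lv a b c r om (v + t) - lv a b c r om v) = C * (1 - r ^ 2) / (κ * r) *
      (ec v * deriv G (ec v) * conj (G (ec v))).re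
    rw [hlog, hre]
    field_simp
  have hcp := circ_pos hR hGD
  have hfac : 0 < C * (1 - r ^ 2) / (κ * r) := by positivity
  rw [hint]
  refine ⟨mul_nonneg hfac.le hcp.1, fun ht => mul_pos hfac (hcp.2 ?_)⟩
  rw [(hGd 0 (by rw [norm_zero]; positivity)).deriv]
  have hκc : (κ : ℂ) ≠ 0 := Complex.ofReal_ne_zero.2 hκ0.ne'
  have hG0 : G 0 ≠ 0 := by
    rw [hG]
    exact Complex.exp_ne_zero _
  refine mul_ne_zero hG0 (mul_ne_zero hκc (mul_ne_zero (Complex.exp_ne_zero _) ?_))
  simp only [mul_zero, zero_mul, add_zero, div_one]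
  rw [sub_ne_zero]
  intro h9
  apply ht
  have h10 : (r : ℂ) * ec t = r * 1 := by rw [← h9, mul_one]
  exact mul_left_cancel₀ hrc h10

end NBCor

end

end Pool.Agent.SLE
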