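import Pool.Agent.Lib.MP_c17912_pr_NB.Cor
import Pool.Agent.Lib.MP_c17912_pr_TR.LDG

set_option autoImplicit false

open MeasureTheory Filter
open scoped Topology Real

namespace Pool.Agent.SLE

noncomputable section

namespace NBFin

open NBCir NBCor

theorem TT_cont {r : ℝ} (hr0 : 0 ≤ r) (hr1 : r < 1) (om : ℝ) : Continuous (TT r om) :=
  continuous_iff_continuousAt.2 fun v => (TT_deriv hr0 hr1 om v).continuousAt

theorem LL_cont {a b c : ℝ} (ha : 0 < a) (hb : 0 < b) (hc : c ^ 2 < a * b) :
    Continuous (TRDNS.LL a b c) :=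
  continuous_iff_continuousAt.2 fun v => (TRDNS.LL_deriv ha hb hc v).continuousAt

theorem ll_cont {a b c r D om : ℝ} (ha : 0 < a) (hb : 0 < b) (hc : c ^ 2 < a * b)
    (h : Par a b c r D om) : Continuous (lv a b c r om) :=
  (LL_cont ha hb hc).comp (TT_cont h.r0.le h.r1 om)

theorem ll_per {a b c : ℝ} (ha : 0 < a) (hb : 0 < b) (hc : c ^ 2 < a * b) (r om v : ℝ) :
    lv a b c r om (v + 2 * π) = lv a b c r om v + TRDNS.LL a b c π := by
  unfold lv
  rw [TT_per, TRDNS.LL_add ha hb hc]

/-- Change of variables. -/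
theorem subst {a b c r D om : ℝ} (h : Par a b c r D om) {F : ℝ → ℝ} (hF : Continuous F)
    (v w : ℝ) :
    ∫ θ in (TT r om v)..(TT r om w), F θ =
      ∫ x in v..w, F (TT r om x) * (Vth a b c (TT r om x) / (2 * D)) := by
  have hTc := TT_cont h.r0.le h.r1 om
  have hVc : Continuous (Vth a b c) := (TRSGN.V_smooth a b c 0).continuous
  have h1 := intervalIntegral.integral_comp_mul_deriv (a := v) (b := w) (f := TT r om)
    (f' := fun x => Vth a b c (TT r om x) / (2 * D)) (g := F) (fun x _ => h.TTd x)
    ((hVc.comp hTc).div_const _).continuousOn hF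
  exact h1.symm

/-- The density in the isotropic coordinate. -/
theorem dens_TT {a b c r D om : ℝ} (ha : 0 < a) (hb : 0 < b) (hc : c ^ 2 < a * b)
    (h : Par a b c r D om) (σ v : ℝ) :
    dens a b c σ (TT r om v) = 1 / (2 * D) * ∫ t in (0 : ℝ)..(2 * π),
      Real.exp (σ * (lv a b c r om v - lv a b c r om (v + t))) := by
  have hD := h.D0
  have hee : Continuous (TRDNS.ee a b c σ) := (TRDNS.ee_smooth ha hb hc σ 0).continuous
  rw [TRDNS.dens_eq ha hb hc, ← TT_per, subst h hee]
  have h1 : ∫ x in v..(v + 2 * π), TRDNS.ee a b c σ (TT r om x) *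
      (Vth a b c (TT r om x) / (2 * D)) =
      ∫ x in v..(v + 2 * π), 1 / (2 * D) * Real.exp (-(σ * lv a b c r om x)) := by
    apply intervalIntegral.integral_congr
    intro x _
    have hV := (Vth_pos ha hb hc (TT r om x)).ne'
    change Real.exp (-(σ * TRDNS.LL a b c (TT r om x))) / Vth a b c (TT r om x) *
      (Vth a b c (TT r om x) / (2 * D)) = 1 / (2 * D) *
        Real.exp (-(σ * TRDNS.LL a b c (TT r om x)))
    field_simp
  have h2 : ∫ x in v..(v + 2 * π), 1 / (2 * D) * Real.exp (-(σ * lv a b c r om x)) =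
      ∫ t in (0 : ℝ)..(2 * π), 1 / (2 * D) * Real.exp (-(σ * lv a b c r om (v + t))) := by
    rw [intervalIntegral.integral_comp_add_left (fun x => 1 / (2 * D) *
      Real.exp (-(σ * lv a b c r om x))) v, add_zero]
  rw [h1, h2, intervalIntegral.integral_const_mul, mul_left_comm]
  congr 1
  rw [← intervalIntegral.integral_const_mul]
  apply intervalIntegral.integral_congr
  intro t _
  change Real.exp (σ * lv a b c r om v) * Real.exp (-(σ * lv a b c r om (v + t))) =
    Real.exp (σ * (lv a b c r om v - lv a b c r om (v + t)))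
  rw [← Real.exp_add]
  congr 1
  ring

/-- The fixed separation integrals. -/
def PP (a b c r om σ t : ℝ) : ℝ := ∫ v in (0 : ℝ)..(2 * π),
  ((a + b) * Real.cos (2 * TT r om v) - (a - b)) *
    Real.exp (σ * (lv a b c r om v - lv a b c r om (v + t)))

theorem PP_cont {a b c r D om : ℝ} (ha : 0 < a) (hb : 0 < b) (hc : c ^ 2 < a * b)
    (h : Par a b c r D om) (σ : ℝ) : Continuous (PP a b c r om σ) := by
  have hT := TT_cont h.r0.le h.r1 om
  have hl := ll_cont ha hb hc h
  refine intervalIntegral.continuous_parametric_intervalIntegral_of_continuous' ?_ 0 (2 * π)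
  change Continuous fun p : ℝ × ℝ => ((a + b) * Real.cos (2 * TT r om p.2) - (a - b)) *
    Real.exp (σ * (lv a b c r om p.2 - lv a b c r om (p.2 + p.1)))
  have h1 : Continuous fun p : ℝ × ℝ => TT r om p.2 := hT.comp continuous_snd
  have h2 : Continuous fun p : ℝ × ℝ => lv a b c r om p.2 := hl.comp continuous_snd
  have h3 : Continuous fun p : ℝ × ℝ => lv a b c r om (p.2 + p.1) :=
    hl.comp (continuous_snd.add continuous_fst)
  fun_prop

theorem main_int {a b c r D om : ℝ} (ha : 0 < a) (hb : 0 < b) (hc : c ^ 2 < a * b)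
    (h : Par a b c r D om) (σ : ℝ) :
    ∫ θ in (0 : ℝ)..π, ((a + b) * Real.cos (2 * θ) - (a - b)) / Vth a b c θ *
        dens a b c σ θ = 1 / (2 * D) * (1 / (2 * D) *
        ∫ t in (0 : ℝ)..(2 * π), PP a b c r om σ t) := by
  have hD := h.D0
  obtain ⟨hs, hp, hpos, -⟩ := dens_props ha hb hc σ
  have hfc : Continuous (dens a b c σ) := (hs 0).continuous
  have hVc : Continuous (Vth a b c) := (TRSGN.V_smooth a b c 0).continuous
  have hV0 : ∀ x, Vth a b c x ≠ 0 := fun x => (Vth_pos ha hb hc x).ne'
  have hT := TT_cont h.r0.le h.r1 om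
  have hl := ll_cont ha hb hc h
  obtain ⟨F, hF⟩ : ∃ F : ℝ → ℝ, F = fun θ =>
    ((a + b) * Real.cos (2 * θ) - (a - b)) / Vth a b c θ * dens a b c σ θ := ⟨_, rfl⟩
  have hFc : Continuous F := by
    rw [hF]
    exact Continuous.mul (Continuous.div (by fun_prop) hVc hV0) hfc
  have hFp : Function.Periodic F π := by
    intro x
    rw [hF]
    change ((a + b) * Real.cos (2 * (x + π)) - (a - b)) / Vth a b c (x + π) *
      dens a b c σ (x + π) = _
    rw [hp x, TRSGN.V_per a b c x, mul_add, Real.cos_add_two_pi]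
  have h1 := hFp.intervalIntegral_add_eq 0 (TT r om 0)
  rw [zero_add, ← TT_per, subst h hFc, zero_add, hF] at h1
  rw [h1]
  have h2 : ∀ x, ((a + b) * Real.cos (2 * TT r om x) - (a - b)) / Vth a b c (TT r om x) *
      dens a b c σ (TT r om x) * (Vth a b c (TT r om x) / (2 * D)) =
      1 / (2 * D) * (1 / (2 * D) * ∫ t in (0 : ℝ)..(2 * π),
        ((a + b) * Real.cos (2 * TT r om x) - (a - b)) *
          Real.exp (σ * (lv a b c r om x - lv a b c r om (x + t)))) := by
    intro x
    rw [intervalIntegral.integral_const_mul, dens_TT ha hb hc h]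
    have hV := hV0 (TT r om x)
    field_simp
  simp only [h2]
  rw [intervalIntegral.integral_const_mul, intervalIntegral.integral_const_mul]
  congr 2
  rw [intervalIntegral_intervalIntegral_swap]
  · rfl
  · have hc2 : Continuous (Function.uncurry fun x t : ℝ =>
        ((a + b) * Real.cos (2 * TT r om x) - (a - b)) *
          Real.exp (σ * (lv a b c r om x - lv a b c r om (x + t)))) := by
      change Continuous fun p : ℝ × ℝ => ((a + b) * Real.cos (2 * TT r om p.1) - (a - b)) *
        Real.exp (σ * (lv a b c r om p.1 - lv a b c r om (p.1 + p.2)))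
      have h1 : Continuous fun p : ℝ × ℝ => TT r om p.1 := hT.comp continuous_fst
      have h2 : Continuous fun p : ℝ × ℝ => lv a b c r om p.1 := hl.comp continuous_fst
      have h3 : Continuous fun p : ℝ × ℝ => lv a b c r om (p.1 + p.2) :=
        hl.comp (continuous_fst.add continuous_snd)
      fun_prop
    have hK : IsCompact (Set.uIcc (0 : ℝ) (2 * π) ×ˢ Set.uIcc (0 : ℝ) (2 * π)) :=
      isCompact_uIcc.prod isCompact_uIcc
    exact (hc2.continuousOn.integrableOn_compact hK).mono_set
      (Set.prod_mono Set.uIoc_subset_uIcc Set.uIoc_subset_uIcc)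

/-- The reflected integrals. -/
theorem PP_refl {a b c : ℝ} (ha : 0 < a) (hb : 0 < b) (hc : c ^ 2 < a * b)
    (r om t : ℝ) :
    PP a b c r om 1 (2 * π - t) = Real.exp (-TRDNS.LL a b c π) *
      ∫ v in (0 : ℝ)..(2 * π), ((a + b) * Real.cos (2 * TT r om (v + t)) - (a - b)) *
        Real.exp (lv a b c r om (v + t) - lv a b c r om v) := by
  obtain ⟨g, hg⟩ : ∃ g : ℝ → ℝ, g = fun v => ((a + b) * Real.cos (2 * TT r om v) - (a - b)) *
    Real.exp (lv a b c r om v - lv a b c r om (v - t)) := ⟨_, rfl⟩
  have hgp : Function.Periodic g (2 * π) := by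
    intro v
    rw [hg]
    change ((a + b) * Real.cos (2 * TT r om (v + 2 * π)) - (a - b)) *
      Real.exp (lv a b c r om (v + 2 * π) - lv a b c r om (v + 2 * π - t)) = _
    rw [TT_per, mul_add, Real.cos_add_two_pi, show v + 2 * π - t = v - t + 2 * π by ring,
      ll_per ha hb hc, ll_per ha hb hc]
    congr 2
    ring
  have h1 := hgp.intervalIntegral_add_eq 0 t
  have h2 : ∫ x in t..(t + 2 * π), g x = ∫ v in (0 : ℝ)..(2 * π), g (v + t) := by
    rw [intervalIntegral.integral_comp_add_right g t, zero_add, add_comm t]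
  rw [zero_add, h2] at h1
  have h3 : PP a b c r om 1 (2 * π - t) = Real.exp (-TRDNS.LL a b c π) *
      ∫ v in (0 : ℝ)..(2 * π), g v := by
    unfold PP
    rw [← intervalIntegral.integral_const_mul]
    apply intervalIntegral.integral_congr
    intro v _
    change ((a + b) * Real.cos (2 * TT r om v) - (a - b)) *
      Real.exp (1 * (lv a b c r om v - lv a b c r om (v + (2 * π - t)))) =
        Real.exp (-TRDNS.LL a b c π) * g v
    rw [hg, show v + (2 * π - t) = v - t + 2 * π by ring, ll_per ha hb hc]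
    change _ = Real.exp (-TRDNS.LL a b c π) * (((a + b) * Real.cos (2 * TT r om v) - (a - b)) *
      Real.exp (lv a b c r om v - lv a b c r om (v - t)))
    rw [mul_left_comm, ← Real.exp_add]
    congr 2
    ring
  rw [h3, h1, hg]
  congr 1
  apply intervalIntegral.integral_congr
  intro v _
  change ((a + b) * Real.cos (2 * TT r om (v + t)) - (a - b)) *
    Real.exp (lv a b c r om (v + t) - lv a b c r om (v + t - t)) = _
  rw [add_sub_cancel_right]

/-- The sum of the two drifts. -/
theorem sum_pos {a b c r D om : ℝ} (ha : 0 < a) (hb : 0 < b) (hc : c ^ 2 < a * b)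
    (h : Par a b c r D om) :
    0 < Lam a b c + Real.exp (TRDNS.LL a b c π) * Lam b a (-c) := by
  have hD := h.D0
  have hT := TT_cont h.r0.le h.r1 om
  have hl := ll_cont ha hb hc h
  obtain ⟨J, hJ⟩ : ∃ J : ℝ → ℝ, J = fun t => ∫ v in (0 : ℝ)..(2 * π),
    (Real.cos (2 * TT r om v) - Real.cos (2 * TT r om (v + t))) *
      Real.exp (lv a b c r om (v + t) - lv a b c r om v) := ⟨_, rfl⟩
  have hJc : Continuous J := by
    rw [hJ]
    refine intervalIntegral.continuous_parametric_intervalIntegral_of_continuous' ?_ 0 (2 * π)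
    change Continuous fun p : ℝ × ℝ =>
      (Real.cos (2 * TT r om p.2) - Real.cos (2 * TT r om (p.2 + p.1))) *
      Real.exp (lv a b c r om (p.2 + p.1) - lv a b c r om p.2)
    have h1 : Continuous fun p : ℝ × ℝ => TT r om p.2 := hT.comp continuous_snd
    have h2 : Continuous fun p : ℝ × ℝ => lv a b c r om p.2 := hl.comp continuous_snd
    have h3 : Continuous fun p : ℝ × ℝ => lv a b c r om (p.2 + p.1) :=
      hl.comp (continuous_snd.add continuous_fst)
    have h4 : Continuous fun p : ℝ × ℝ => TT r om (p.2 + p.1) :=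
      hT.comp (continuous_snd.add continuous_fst)
    fun_prop
  have hkey : ∀ t, PP a b c r om (-1) t - Real.exp (TRDNS.LL a b c π) *
      PP a b c r om 1 (2 * π - t) = (a + b) * J t := by
    intro t
    rw [PP_refl ha hb hc r om, ← mul_assoc, ← Real.exp_add, add_neg_cancel, Real.exp_zero, one_mul,
      hJ]
    unfold PP
    rw [← intervalIntegral.integral_sub, ← intervalIntegral.integral_const_mul]
    · apply intervalIntegral.integral_congr
      intro v _
      change ((a + b) * Real.cos (2 * TT r om v) - (a - b)) *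
        Real.exp (-1 * (lv a b c r om v - lv a b c r om (v + t))) -
        ((a + b) * Real.cos (2 * TT r om (v + t)) - (a - b)) *
        Real.exp (lv a b c r om (v + t) - lv a b c r om v) = (a + b) *
        ((Real.cos (2 * TT r om v) - Real.cos (2 * TT r om (v + t))) *
      Real.exp (lv a b c r om (v + t) - lv a b c r om v))
      rw [show -1 * (lv a b c r om v - lv a b c r om (v + t)) =
        lv a b c r om (v + t) - lv a b c r om v by ring]
      ring
    · refine Continuous.intervalIntegrable ?_ _ _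
      have h3 : Continuous fun v : ℝ => lv a b c r om (v + t) :=
        hl.comp (continuous_id.add continuous_const)
      fun_prop
    · refine Continuous.intervalIntegrable ?_ _ _
      have h3 : Continuous fun v : ℝ => lv a b c r om (v + t) :=
        hl.comp (continuous_id.add continuous_const)
      have h4 : Continuous fun v : ℝ => TT r om (v + t) :=
        hT.comp (continuous_id.add continuous_const)
      fun_prop
  have h1 := Lam_fwd ha hb hc
  have h2 := Lam_bwd ha hb hc
  rw [main_int ha hb hc h] at h1 h2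
  have h3 : ∫ t in (0 : ℝ)..(2 * π), PP a b c r om 1 t =
      ∫ t in (0 : ℝ)..(2 * π), PP a b c r om 1 (2 * π - t) := by
    rw [intervalIntegral.integral_comp_sub_left (fun t => PP a b c r om 1 t) (2 * π), sub_self,
      sub_zero]
  have hP1 := PP_cont ha hb hc h (-1)
  have hP2 : Continuous fun t => PP a b c r om 1 (2 * π - t) :=
    (PP_cont ha hb hc h 1).comp (continuous_const.sub continuous_id)
  have h4 : (∫ t in (0 : ℝ)..(2 * π), PP a b c r om (-1) t) - Real.exp (TRDNS.LL a b c π) *
      ∫ t in (0 : ℝ)..(2 * π), PP a b c r om 1 (2 * π - t) =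
      (a + b) * ∫ t in (0 : ℝ)..(2 * π), J t := by
    have hP3 : Continuous fun t => Real.exp (TRDNS.LL a b c π) * PP a b c r om 1 (2 * π - t) :=
      continuous_const.mul hP2
    rw [← intervalIntegral.integral_const_mul, ← intervalIntegral.integral_const_mul,
      ← intervalIntegral.integral_sub (hP1.intervalIntegrable _ _)
        (hP3.intervalIntegrable _ _)]
    apply intervalIntegral.integral_congr
    intro t _
    exact hkey t
  have h5 : 0 < ∫ t in (0 : ℝ)..(2 * π), J t := by
    refine intervalIntegral.intervalIntegral_pos_of_pos_on (hJc.intervalIntegrable _ _) ?_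
      Real.two_pi_pos
    intro t ht
    rw [hJ]
    refine (h.inner_pos ha hb hc t).2 ?_
    intro h6
    unfold ec at h6
    rw [Complex.exp_eq_one_iff] at h6
    obtain ⟨n, hn⟩ := h6
    have h7 : (t : ℂ) = (((n : ℝ) * (2 * π) : ℝ) : ℂ) := by
      have h8 : (t : ℂ) * Complex.I = ((n : ℂ) * (2 * π)) * Complex.I := by
        rw [hn]
        ring
      have h9 := mul_right_cancel₀ Complex.I_ne_zero h8
      rw [h9]
      push_cast
      ring
    have h8 : t = (n : ℝ) * (2 * π) := Complex.ofReal_injective h7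
    have hpi := Real.two_pi_pos
    have h9 : (0 : ℝ) < n := by
      by_contra hcon
      push Not at hcon
      nlinarith [ht.1]
    have h10 : (n : ℝ) < 1 := by
      by_contra hcon
      push Not at hcon
      nlinarith [ht.2]
    have h11 : (0 : ℤ) < n := by exact_mod_cast h9
    have h12 : n < (1 : ℤ) := by exact_mod_cast h10
    omega
  have h6 : Lam a b c + Real.exp (TRDNS.LL a b c π) * Lam b a (-c) =
      1 / (2 * D) * (1 / (2 * D) * ((a + b) * ∫ t in (0 : ℝ)..(2 * π), J t)) := by
    rw [← h4, ← h3, h1, show Lam b a (-c) = -(-Lam b a (-c)) by ring, h2]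
    ring
  rw [h6]
  have : 0 < a + b := by linarith
  positivity

/-- The parameters exist. -/
theorem exists_par {a b c : ℝ} (ha : 0 < a) (hb : 0 < b) (hc : c ^ 2 < a * b)
    (hne : ¬(a = b ∧ c = 0)) : ∃ r D om, Par a b c r D om := by
  obtain ⟨D, hD⟩ : ∃ D, D = Real.sqrt (a * b - c ^ 2) := ⟨_, rfl⟩
  have hD0 : 0 < D := by
    rw [hD]
    exact Real.sqrt_pos.2 (by linarith)
  have hD2 : D ^ 2 = a * b - c ^ 2 := by
    rw [hD]
    exact Real.sq_sqrt (by linarith)
  obtain ⟨z, hz⟩ : ∃ z : ℂ, z = ⟨a - b, 2 * c⟩ := ⟨_, rfl⟩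
  have hz0 : z ≠ 0 := by
    intro h
    rw [hz, Complex.ext_iff] at h
    simp only [Complex.zero_re, Complex.zero_im] at h
    exact hne ⟨by linarith [h.1], by linarith [h.2]⟩
  obtain ⟨S, hS⟩ : ∃ S, S = ‖z‖ := ⟨_, rfl⟩
  have hS0 : 0 < S := by
    rw [hS]
    exact norm_pos_iff.2 hz0
  have hS2 : S ^ 2 = (a - b) ^ 2 + 4 * c ^ 2 := by
    rw [hS, ← Complex.normSq_eq_norm_sq, Complex.normSq_apply, hz]
    ring
  have hom : ec (Complex.arg z) = z / S := by
    have h := Complex.norm_mul_exp_arg_mul_I z
    have hSc : (S : ℂ) ≠ 0 := Complex.ofReal_ne_zero.2 hS0.ne'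
    rw [← hS] at h
    unfold ec
    rw [eq_div_iff hSc, mul_comm]
    exact h
  have hre : (ec (Complex.arg z)).re = (a - b) / S := by
    rw [hom, Complex.div_ofReal_re, hz]
  have him : (ec (Complex.arg z)).im = 2 * c / S := by
    rw [hom, Complex.div_ofReal_im, hz]
  have hT : 0 < a + b := by linarith
  have hTD : 0 < a + b + 2 * D := by linarith
  have hST : S < a + b := by
    nlinarith
  have hr2 : 1 - (S / (a + b + 2 * D)) ^ 2 = 4 * D / (a + b + 2 * D) := by
    field_simp
    nlinarith
  have hr3 : 1 + (S / (a + b + 2 * D)) ^ 2 = 2 * (a + b) / (a + b + 2 * D) := by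
    field_simp
    nlinarith
  refine ⟨S / (a + b + 2 * D), D, Complex.arg z, ⟨by positivity, ?_, hD0, ?_, ?_, ?_⟩⟩
  · rw [div_lt_one hTD]
    linarith
  · rw [hr2, hr3]
    ring
  · rw [hr2, hre]
    field_simp
  · rw [hr2, him]
    field_simp

end NBFin

/-- NB. The forward and the backward drift are never both nonpositive. -/
theorem not_both {a b c : ℝ} (ha : 0 < a) (hb : 0 < b) (hc : c ^ 2 < a * b) :
    0 < Lam a b c ∨ 0 < Lam b a (-c) := by
  by_cases hne : a = b ∧ c = 0
  · obtain ⟨h1, h2⟩ := hne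
    subst h1
    subst h2
    left
    rw [TRLDG.Lam_eq ha hb]
    have h := mul_pos (TRLDG.C_pos ha hb) (LAAux.num_pos ha hb)
    have h4 : (0 : ℝ) < (4 - (a - a)) / 2 := by
      rw [sub_self]
      norm_num
    exact mul_pos h4 h
  · obtain ⟨r, D, om, h⟩ := NBFin.exists_par ha hb hc hne
    have h1 := NBFin.sum_pos ha hb hc h
    by_contra hcon
    push Not at hcon
    have h2 := Real.exp_pos (TRDNS.LL a b c π)
    nlinarith [hcon.1, hcon.2]

end

end Pool.Agent.SLE
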