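import Pool.Agent.Lib.MP_c17912_pr_NB.Cir
import Pool.Agent.Lib.MP_c17912_pr_TC.ROB

/-!
# MP_c17912_pr, project TC, NB for rank one: the line coordinate

`y` is the coordinate of the line, `θ = om / 2 + XX0 T y` the angle; `zz T y = exp (2 i XX0)`.
-/

set_option autoImplicit false

open MeasureTheory Filter Complex
open scoped Topology Real ComplexConjugate

namespace Pool.Agent.SLE

noncomputable section

namespace NBRo

open NBCir TCRO

/-- The point of the upper half plane. -/
def pp (T y : ℝ) : ℂ := T * y + I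

theorem pp_re (T y : ℝ) : (pp T y).re = T * y := by
  unfold pp
  simp

theorem pp_im (T y : ℝ) : (pp T y).im = 1 := by
  unfold pp
  simp

theorem pp_slit (T y : ℝ) : pp T y ∈ Complex.slitPlane := by
  right
  rw [pp_im]
  norm_num

theorem pp_ne (T y : ℝ) : pp T y ≠ 0 := Complex.slitPlane_ne_zero (pp_slit T y)

theorem pp_sq (T y : ℝ) : ‖pp T y‖ ^ 2 = (T * y) ^ 2 + 1 := by
  rw [← Complex.normSq_eq_norm_sq, Complex.normSq_apply, pp_re, pp_im]
  ring

theorem pp_one (T y : ℝ) : 1 ≤ ‖pp T y‖ := by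
  have h := Complex.abs_im_le_norm (pp T y)
  rw [pp_im, abs_one] at h
  exact h

theorem pp_deriv (T y : ℝ) : HasDerivAt (pp T) (T : ℂ) y := by
  have h1 : HasDerivAt (fun y : ℝ => (y : ℂ)) 1 y := Complex.ofRealCLM.hasDerivAt (x := y)
  have h2 := (h1.const_mul (T : ℂ)).add_const I
  rw [mul_one] at h2
  exact h2

theorem pp_add (T y s : ℝ) : pp T (y + s) = pp T y + T * s := by
  unfold pp
  push_cast
  ring

theorem pp_sub (T y s : ℝ) : pp T (y - s) = pp T y - T * s := by
  unfold pp
  push_cast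
  ring

/-- Its logarithm. -/
def Lc (T y : ℝ) : ℂ := Complex.log (pp T y)

theorem Lc_deriv (T y : ℝ) : HasDerivAt (Lc T) (T / pp T y) y :=
  (pp_deriv T y).clog_real (pp_slit T y)

theorem Lc_cont (T : ℝ) : Continuous (Lc T) :=
  continuous_iff_continuousAt.2 fun v => (Lc_deriv T v).continuousAt

theorem Lc_im (T y : ℝ) : 0 < (Lc T y).im ∧ (Lc T y).im < π := by
  unfold Lc
  rw [Complex.log_im]
  constructor
  · rcases (Complex.arg_nonneg_iff.2 (by rw [pp_im]; norm_num : 0 ≤ (pp T y).im)).lt_or_eq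
      with h | h
    · exact h
    · exfalso
      have h2 := (Complex.arg_eq_zero_iff.1 h.symm).2
      rw [pp_im] at h2
      norm_num at h2
  · exact Complex.arg_lt_pi_iff.2 (Or.inr (by rw [pp_im]; norm_num))

theorem Lc_re (T y : ℝ) : (Lc T y).re = Real.log ‖pp T y‖ := Complex.log_re _

/-- The point of the circle. -/
def zz (T y : ℝ) : ℂ := (T * y - I) / pp T y

theorem zz_eq (T y : ℝ) : zz T y = 1 - 2 * I / pp T y := by
  have h := pp_ne T y
  unfold zz
  rw [eq_sub_iff_add_eq, ← add_div, div_eq_one_iff_eq h]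
  unfold pp
  ring

theorem ec_XX (T y : ℝ) : ec (2 * XX0 T y) = zz T y := by
  have h1 := Real.cos_arctan (T * y)
  have h2 := Real.sin_arctan (T * y)
  have h3 : 0 < 1 + (T * y) ^ 2 := by positivity
  have h4 : (1 / √(1 + (T * y) ^ 2)) ^ 2 = 1 / (1 + (T * y) ^ 2) := by
    rw [div_pow, Real.sq_sqrt h3.le, one_pow]
  have hs : Real.sin (XX0 T y) = 1 / √(1 + (T * y) ^ 2) := by
    unfold XX0
    rw [Real.sin_add_pi_div_two, h1]
  have hc : Real.cos (XX0 T y) = -(T * y * (1 / √(1 + (T * y) ^ 2))) := by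
    unfold XX0
    rw [Real.cos_add_pi_div_two, h2]
    ring
  have h5 : zz T y = (T * y - I) * (T * y - I) / (1 + (T * y) ^ 2 : ℝ) := by
    have h6 : ((1 + (T * y) ^ 2 : ℝ) : ℂ) = pp T y * (T * y - I) := by
      unfold pp
      push_cast
      linear_combination (1 : ℂ) * Complex.I_sq
    have h7 : (T * y - I : ℂ) ≠ 0 := by
      intro h
      have := congrArg Complex.im h
      simp at this
    rw [h6]
    unfold zz
    rw [mul_div_mul_right _ _ h7]
  rw [h5]
  unfold ec
  apply Complex.ext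
  · rw [Complex.exp_ofReal_mul_I_re, Real.cos_two_mul', hs, hc, Complex.div_ofReal_re]
    simp
    field_simp
    have h8 : √(1 + T ^ 2 * y ^ 2) ^ 2 = 1 + T ^ 2 * y ^ 2 := Real.sq_sqrt (by positivity)
    rw [h8]
    try ring
  · rw [Complex.exp_ofReal_mul_I_im, Real.sin_two_mul, hs, hc, Complex.div_ofReal_im]
    simp
    field_simp
    have h8 : √(1 + T ^ 2 * y ^ 2) ^ 2 = 1 + T ^ 2 * y ^ 2 := Real.sq_sqrt (by positivity)
    rw [h8]
    try ring

/-- The angle. -/
def th (T om y : ℝ) : ℝ := om / 2 + XX0 T y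

theorem ec_th (T om y : ℝ) : ec (2 * th T om y) = ec om * zz T y := by
  rw [← ec_XX]
  unfold ec th
  rw [← Complex.exp_add]
  congr 1
  push_cast
  ring

theorem cos_th (T om y : ℝ) : Real.cos (2 * th T om y) = (ec om * zz T y).re := by
  rw [← ec_th]
  unfold ec
  rw [Complex.exp_ofReal_mul_I_re]

theorem sin_th (T om y : ℝ) : Real.sin (2 * th T om y) = (ec om * zz T y).im := by
  rw [← ec_th]
  unfold ec
  rw [Complex.exp_ofReal_mul_I_im]

theorem th_deriv (T om y : ℝ) : HasDerivAt (th T om) (T / (1 + (T * y) ^ 2)) y := by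
  have h := (XX0_deriv T y).const_add (om / 2)
  refine (show HasDerivAt (th T om) _ y from h).congr_deriv ?_
  rw [sin_XX0]
  ring

/-- The exponent. -/
def Qf (T om y : ℝ) : ℝ := -(4 * Real.sin om * y) + 8 / T * (ec om * Lc T y).re

theorem Qf_deriv {T : ℝ} (hT : 0 < T) (om y : ℝ) :
    HasDerivAt (Qf T om) (-(4 * Real.sin (2 * th T om y))) y := by
  have h1 := (Lc_deriv T y).const_mul (ec om)
  have h2 : HasDerivAt (fun y => (ec om * Lc T y).re) (ec om * (T / pp T y)).re y :=
    Complex.reCLM.hasFDerivAt.comp_hasDerivAt y h1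
  have h3 := (((hasDerivAt_id y).const_mul (4 * Real.sin om)).neg).add (h2.const_mul (8 / T))
  refine (show HasDerivAt (Qf T om) _ y from h3).congr_deriv ?_
  rw [sin_th, zz_eq]
  have h4 : (ec om * (1 - 2 * I / pp T y)).im = Real.sin om - 2 * (ec om / pp T y).re := by
    have h5 : ec om * (1 - 2 * I / pp T y) = ec om - (2 : ℝ) * (I * (ec om / pp T y)) := by
      push_cast
      ring
    rw [h5, Complex.sub_im, Complex.im_ofReal_mul, Complex.I_mul_im]
    congr 1
    unfold ec
    rw [Complex.exp_ofReal_mul_I_im]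
  have h6 : (ec om * (T / pp T y)).re = T * (ec om / pp T y).re := by
    have h5 : ec om * (T / pp T y) = (T : ℂ) * (ec om / pp T y) := by ring
    rw [h5, Complex.re_ofReal_mul]
  rw [h4, h6]
  field_simp
  ring

theorem Qf_cont {T : ℝ} (hT : 0 < T) (om : ℝ) : Continuous (Qf T om) :=
  continuous_iff_continuousAt.2 fun v => (Qf_deriv hT om v).continuousAt

/-- The logarithm grows slowly. -/
theorem Lc_diff {T : ℝ} (hT : 0 < T) {y s : ℝ} (hs : 0 ≤ s) :
    ‖Lc T (y - s) - Lc T y‖ ≤ Real.log (1 + T * s) + π ∧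
      ‖Lc T (y + s) - Lc T y‖ ≤ Real.log (1 + T * s) + π := by
  have hTs : 0 ≤ T * s := by positivity
  have hn : ‖(T * s : ℂ)‖ = T * s := by
    rw [← Complex.ofReal_mul, Complex.norm_real, Real.norm_of_nonneg hTs]
  have key : ∀ x y : ℝ, ‖pp T x‖ ≤ ‖pp T y‖ + T * s → ‖pp T y‖ ≤ ‖pp T x‖ + T * s →
      ‖Lc T x - Lc T y‖ ≤ Real.log (1 + T * s) + π := by
    intro x y h1 h2
    have hx := pp_one T x
    have hy := pp_one T y
    have h3 : ‖pp T x‖ ≤ (1 + T * s) * ‖pp T y‖ := by nlinarith
    have h4 : ‖pp T y‖ ≤ (1 + T * s) * ‖pp T x‖ := by nlinarith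
    have h5 : Real.log ‖pp T x‖ ≤ Real.log (1 + T * s) + Real.log ‖pp T y‖ := by
      rw [← Real.log_mul (by positivity) (by positivity)]
      exact Real.log_le_log (by positivity) h3
    have h6 : Real.log ‖pp T y‖ ≤ Real.log (1 + T * s) + Real.log ‖pp T x‖ := by
      rw [← Real.log_mul (by positivity) (by positivity)]
      exact Real.log_le_log (by positivity) h4
    have h7 := Lc_im T x
    have h8 := Lc_im T y
    refine (Complex.norm_le_abs_re_add_abs_im _).trans (add_le_add ?_ ?_)
    · rw [Complex.sub_re, Lc_re, Lc_re, abs_le]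
      constructor <;> linarith
    · rw [Complex.sub_im, abs_le]
      constructor <;> linarith [h7.1, h7.2, h8.1, h8.2]
  have e1 : ‖pp T (y - s)‖ ≤ ‖pp T y‖ + T * s := by
    rw [pp_sub, ← hn]
    exact norm_sub_le _ _
  have e2 : ‖pp T y‖ ≤ ‖pp T (y - s)‖ + T * s := by
    have : pp T y = pp T (y - s) + T * s := by
      rw [pp_sub]
      ring
    rw [this, ← hn]
    exact norm_add_le _ _
  have e3 : ‖pp T (y + s)‖ ≤ ‖pp T y‖ + T * s := by
    rw [pp_add, ← hn]
    exact norm_add_le _ _
  have e4 : ‖pp T y‖ ≤ ‖pp T (y + s)‖ + T * s := by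
    have : pp T y = pp T (y + s) - T * s := by
      rw [pp_add]
      ring
    rw [this, ← hn]
    exact norm_sub_le _ _
  exact ⟨key _ _ e1 e2, key _ _ e3 e4⟩

/-- The multiplier. -/
def ww (T y s : ℝ) : ℂ := 1 - T * s / pp T y

theorem exp_diff (T y s : ℝ) : Complex.exp (Lc T (y - s) - Lc T y) = ww T y s := by
  unfold Lc
  rw [Complex.exp_sub, Complex.exp_log (pp_ne _ _), Complex.exp_log (pp_ne _ _), pp_sub]
  unfold ww
  rw [sub_div, div_self (pp_ne T y)]

theorem exp_diff' (T y s : ℝ) :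
    Complex.exp (Lc T (y + s) - Lc T y) = 1 + T * s / pp T y := by
  unfold Lc
  rw [Complex.exp_sub, Complex.exp_log (pp_ne _ _), Complex.exp_log (pp_ne _ _), pp_add]
  rw [add_div, div_self (pp_ne T y)]

theorem log_ww (T y s : ℝ) : Complex.log (ww T y s) = Lc T (y - s) - Lc T y := by
  rw [← exp_diff]
  have h7 := Lc_im T (y - s)
  have h8 := Lc_im T y
  refine Complex.log_exp ?_ ?_
  · rw [Complex.sub_im]
    linarith [h7.1, h7.2, h8.1, h8.2]
  · rw [Complex.sub_im]
    linarith [h7.1, h7.2, h8.1, h8.2]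

/-- Second difference of the logarithm. -/
theorem Lc_second {T : ℝ} (hT : 0 < T) {y s : ℝ} (hs : 0 ≤ s) :
    ‖Lc T (y - s) + Lc T (y + s) - 2 * Lc T y‖ ≤
      (4 * (Real.log (1 + T * s) + π)) * ((T * s) ^ 2 / ((T * y) ^ 2 + 1)) := by
  have hTs : 0 ≤ T * s := by positivity
  have hpi := Real.pi_gt_three
  have hlog : 0 ≤ Real.log (1 + T * s) := Real.log_nonneg (by linarith)
  obtain ⟨z, hz⟩ : ∃ z : ℂ, z = -((T * s / pp T y) ^ 2) := ⟨_, rfl⟩
  have hzn : ‖z‖ = (T * s) ^ 2 / ((T * y) ^ 2 + 1) := by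
    rw [hz, norm_neg, norm_pow, norm_div, div_pow, pp_sq, ← Complex.ofReal_mul,
      Complex.norm_real, Real.norm_of_nonneg hTs]
  have e0 : Lc T (y - s) + Lc T (y + s) - 2 * Lc T y =
      (Lc T (y - s) - Lc T y) + (Lc T (y + s) - Lc T y) := by ring
  have e1 : Complex.exp (Lc T (y - s) + Lc T (y + s) - 2 * Lc T y) = 1 + z := by
    rw [e0, Complex.exp_add, exp_diff, exp_diff', hz]
    unfold ww
    ring
  rw [← hzn]
  by_cases hz2 : ‖z‖ ≤ 1 / 2
  · -- the arguments add up
    have h1 : 0 ≤ (Lc T (y - s) - Lc T y).im ∧ (Lc T (y + s) - Lc T y).im ≤ 0 := by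
      have hanti : Antitone fun y => (Lc T y).im := by
        refine antitone_of_hasDerivAt_nonpos
          (f' := fun y => (T / pp T y : ℂ).im) (fun y => ?_) (fun y => ?_)
        · exact Complex.imCLM.hasFDerivAt.comp_hasDerivAt y (Lc_deriv T y)
        · change (T / pp T y : ℂ).im ≤ 0
          rw [Complex.div_im]
          simp only [Complex.ofReal_im, Complex.ofReal_re, zero_mul, zero_div, zero_sub,
            pp_im, mul_one]
          have := Complex.normSq_nonneg (pp T y)
          have : 0 ≤ T / normSq (pp T y) := by positivity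
          linarith
      constructor
      · rw [Complex.sub_im]
        have := hanti (show y - s ≤ y by linarith)
        simp only at this
        linarith
      · rw [Complex.sub_im]
        have := hanti (show y ≤ y + s by linarith)
        simp only at this
        linarith
    have h7 := Lc_im T (y - s)
    have h8 := Lc_im T y
    have h9 := Lc_im T (y + s)
    rw [Complex.sub_im, Complex.sub_im] at h1
    have e2 : Complex.log (1 + z) = Lc T (y - s) + Lc T (y + s) - 2 * Lc T y := by
      rw [← e1]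
      refine Complex.log_exp ?_ ?_
      · rw [e0, Complex.add_im, Complex.sub_im, Complex.sub_im]
        linarith [h7.1, h7.2, h8.1, h8.2, h9.1, h9.2, h1.1, h1.2]
      · rw [e0, Complex.add_im, Complex.sub_im, Complex.sub_im]
        linarith [h7.1, h7.2, h8.1, h8.2, h9.1, h9.2, h1.1, h1.2]
    rw [← e2]
    refine (Complex.norm_log_one_add_half_le_self hz2).trans ?_
    refine mul_le_mul_of_nonneg_right ?_ (norm_nonneg _)
    linarith
  · push Not at hz2
    have h1 := Lc_diff hT (y := y) hs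
    rw [e0]
    refine (norm_add_le _ _).trans ?_
    have h2 : 0 ≤ Real.log (1 + T * s) + π := by linarith
    nlinarith [h1.1, h1.2]

/-- The weights. -/
def EE (T om y s : ℝ) : ℝ := Real.exp (Qf T om y - Qf T om (y - s))

/-- The bound. -/
def Bd (T om s : ℝ) : ℝ :=
  Real.exp (-(4 * Real.sin om * s) + 8 / T * (Real.log (1 + T * s) + π))

theorem EE_le {T : ℝ} (hT : 0 < T) (om : ℝ) {y s : ℝ} (hs : 0 ≤ s) :
    EE T om y s ≤ Bd T om s := by
  unfold EE Bd Qf
  rw [Real.exp_le_exp]
  have h1 := (Lc_diff hT (y := y) hs).1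
  have h2 : (ec om * Lc T y).re - (ec om * Lc T (y - s)).re ≤ Real.log (1 + T * s) + π := by
    rw [← Complex.sub_re, ← mul_sub]
    refine (Complex.re_le_norm _).trans ?_
    rw [norm_mul, ec_norm, one_mul, norm_sub_rev]
    exact h1
  have h3 : 8 / T * ((ec om * Lc T y).re - (ec om * Lc T (y - s)).re) ≤
      8 / T * (Real.log (1 + T * s) + π) := mul_le_mul_of_nonneg_left h2 (by positivity)
  linarith

/-- The difference of the two weights. -/
theorem EE_diff {T : ℝ} (hT : 0 < T) (om : ℝ) {y s : ℝ} (hs : 0 ≤ s) :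
    |EE T om y s - EE T om (y + s) s| ≤
      (8 / T * (4 * (Real.log (1 + T * s) + π)) * (2 * Bd T om s)) *
        ((T * s) ^ 2 / ((T * y) ^ 2 + 1)) := by
  have hexp : ∀ u v : ℝ, |Real.exp u - Real.exp v| ≤ |u - v| * (Real.exp u + Real.exp v) := by
    have key : ∀ u v : ℝ, u ≤ v → Real.exp v - Real.exp u ≤ (v - u) * Real.exp v := by
      intro u v _
      have h := Real.add_one_le_exp (u - v)
      have h2 : Real.exp u = Real.exp (u - v) * Real.exp v := by
        rw [← Real.exp_add]
        congr 1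
        ring
      rw [h2]
      nlinarith [Real.exp_pos v]
    intro u v
    have hu := Real.exp_pos u
    have hv := Real.exp_pos v
    rcases le_total u v with h | h
    · rw [abs_sub_comm, abs_of_nonneg (sub_nonneg.2 (Real.exp_le_exp.2 h)), abs_sub_comm,
        abs_of_nonneg (sub_nonneg.2 h)]
      have := key u v h
      nlinarith [mul_nonneg (sub_nonneg.2 h) hu.le]
    · rw [abs_of_nonneg (sub_nonneg.2 (Real.exp_le_exp.2 h)), abs_of_nonneg (sub_nonneg.2 h)]
      have := key v u h
      nlinarith [mul_nonneg (sub_nonneg.2 h) hv.le]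
  have h1 := hexp (Qf T om y - Qf T om (y - s)) (Qf T om (y + s) - Qf T om (y + s - s))
  have h2 := EE_le hT om (y := y) hs
  have h3 := EE_le hT om (y := y + s) hs
  have h4 : |Qf T om y - Qf T om (y - s) - (Qf T om (y + s) - Qf T om (y + s - s))| ≤
      8 / T * ((4 * (Real.log (1 + T * s) + π)) * ((T * s) ^ 2 / ((T * y) ^ 2 + 1))) := by
    have h5 := Lc_second hT (y := y) hs
    have h6 : Qf T om y - Qf T om (y - s) - (Qf T om (y + s) - Qf T om (y + s - s)) =
        -(8 / T * (ec om * (Lc T (y - s) + Lc T (y + s) - 2 * Lc T y)).re) := by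
      have h7 : (ec om * (Lc T (y - s) + Lc T (y + s) - 2 * Lc T y)).re =
          (ec om * Lc T (y - s)).re + (ec om * Lc T (y + s)).re - 2 * (ec om * Lc T y).re := by
        have : ec om * (Lc T (y - s) + Lc T (y + s) - 2 * Lc T y) = ec om * Lc T (y - s) +
          ec om * Lc T (y + s) - (2 : ℝ) * (ec om * Lc T y) := by
          push_cast
          ring
        rw [this, Complex.sub_re, Complex.add_re, Complex.re_ofReal_mul]
      rw [h7, add_sub_cancel_right]
      unfold Qf
      ring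
    rw [h6, abs_neg, abs_mul, abs_of_pos (by positivity : 0 < 8 / T)]
    refine mul_le_mul_of_nonneg_left ?_ (by positivity)
    refine (Complex.abs_re_le_norm _).trans ?_
    rw [norm_mul, ec_norm, one_mul]
    exact h5
  have h5 : 0 ≤ Real.exp (Qf T om y - Qf T om (y - s)) +
      Real.exp (Qf T om (y + s) - Qf T om (y + s - s)) := by positivity
  calc |EE T om y s - EE T om (y + s) s| ≤ _ := h1
    _ ≤ 8 / T * ((4 * (Real.log (1 + T * s) + π)) * ((T * s) ^ 2 / ((T * y) ^ 2 + 1))) *
        (2 * Bd T om s) := by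
        refine mul_le_mul h4 ?_ h5 (le_trans (abs_nonneg _) h4)
        have e2 : Real.exp (Qf T om y - Qf T om (y - s)) = EE T om y s := rfl
        have e3 : Real.exp (Qf T om (y + s) - Qf T om (y + s - s)) = EE T om (y + s) s := rfl
        rw [e2, e3]
        linarith
    _ = _ := by ring

end NBRo

end

end Pool.Agent.SLE
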