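import Pool.Agent.Lib.MP_c17912_pr_NB.RA

/-!
# MP_c17912_pr, project TC, NB for rank one: the integral for a fixed time
-/

set_option autoImplicit false

open MeasureTheory Filter Complex
open scoped Topology Real ComplexConjugate

namespace Pool.Agent.SLE

noncomputable section

namespace NBRo

open NBCir TCRO

theorem zz_cont (T : ℝ) : Continuous (zz T) := by
  have h : zz T = fun y => 1 - 2 * I / pp T y := funext (zz_eq T)
  rw [h]
  have h2 : Continuous (pp T) := continuous_iff_continuousAt.2 fun v =>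
    (pp_deriv T v).continuousAt
  exact continuous_const.sub (continuous_const.div h2 (pp_ne T))

theorem th_cont (T om : ℝ) : Continuous (th T om) :=
  continuous_iff_continuousAt.2 fun v => (th_deriv T om v).continuousAt

theorem EE_cont {T : ℝ} (hT : 0 < T) (om s : ℝ) : Continuous fun y => EE T om y s := by
  unfold EE
  have h := Qf_cont hT om
  exact ((h.sub (h.comp (continuous_id.sub continuous_const)))).rexp

theorem EE_pos (T om y s : ℝ) : 0 < EE T om y s := Real.exp_pos _

theorem zz_sub (T y s : ℝ) :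
    zz T y - zz T (y - s) = 2 * I * (T * s) / (pp T y ^ 2 * ww T y s) := by
  have h1 := pp_ne T y
  have h2 := pp_ne T (y - s)
  have h3 : pp T (y - s) = pp T y * ww T y s := by
    rw [pp_sub]
    unfold ww
    field_simp
  have h4 : ww T y s ≠ 0 := by
    intro h
    rw [h, mul_zero] at h3
    exact h2 h3
  rw [zz_eq, zz_eq, h3]
  have h5 : ww T y s * pp T y = pp T y - T * s := by
    unfold ww
    field_simp
  field_simp
  linear_combination (-2 * I) * h5

/-- The main computation for a fixed time. -/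
theorem line_circ {T : ℝ} (hT : 0 < T) (om : ℝ) {s : ℝ} (hs : 0 < s) :
    ∃ J : ℝ, 0 < J ∧ Tendsto (fun N : ℝ => ∫ y in (-N)..N,
      (Real.cos (2 * th T om y) - Real.cos (2 * th T om (y - s))) * EE T om y s) atTop
        (𝓝 J) := by
  obtain ⟨τ, hτ⟩ : ∃ τ : ℝ, τ = T * s / 2 := ⟨_, rfl⟩
  have hτ0 : 0 < τ := by rw [hτ]; positivity
  obtain ⟨G, hG⟩ : ∃ G : ℂ → ℂ, G = fun z => Complex.exp (-((4 / T : ℝ) : ℂ) * (ec om *
    Complex.log (1 + I * τ * (1 - z)))) := ⟨_, rfl⟩
  obtain ⟨R, hRe⟩ : ∃ R : ℝ, R = √(1 + τ ^ 2) / τ := ⟨_, rfl⟩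
  have hsq : τ < √(1 + τ ^ 2) := by
    apply Real.lt_sqrt_of_sq_lt
    linarith
  have hR : 1 < R := by
    rw [hRe, lt_div_iff₀ hτ0]
    linarith
  have hsl : ∀ z : ℂ, ‖z‖ < R → 1 + I * τ * (1 - z) ∈ Complex.slitPlane := by
    intro z hz
    by_contra hcon
    rw [Complex.mem_slitPlane_iff, not_or, not_lt, not_not] at hcon
    obtain ⟨h1, h2⟩ := hcon
    have h3 : ‖(1 + I * τ * (1 - z)) - (1 + I * τ)‖ < √(1 + τ ^ 2) := by
      have e : (1 + I * τ * (1 - z)) - (1 + I * τ) = -(I * τ * z) := by ring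
      rw [e, norm_neg, norm_mul, norm_mul, Complex.norm_I, one_mul, Complex.norm_real,
        Real.norm_of_nonneg hτ0.le]
      rw [hRe, lt_div_iff₀ hτ0] at hz
      linarith
    have h4 : √(1 + τ ^ 2) ≤ ‖(1 + I * τ * (1 - z)) - (1 + I * τ)‖ := by
      apply Real.sqrt_le_iff.2
      refine ⟨norm_nonneg _, ?_⟩
      rw [← Complex.normSq_eq_norm_sq, Complex.normSq_apply]
      obtain ⟨q, hq⟩ : ∃ q : ℂ, q = 1 + I * τ * (1 - z) := ⟨_, rfl⟩
      rw [← hq] at h1 h2 ⊢
      simp only [Complex.sub_re, Complex.add_re, Complex.one_re, Complex.mul_re, Complex.I_re,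
        Complex.ofReal_re, Complex.I_im, Complex.ofReal_im, Complex.sub_im, Complex.add_im,
        Complex.one_im, Complex.mul_im, h2]
      nlinarith
    linarith
  have hGd : ∀ z : ℂ, ‖z‖ < R → HasDerivAt G (G z * (2 * s * I * ec om /
      (1 + I * τ * (1 - z)))) z := by
    intro z hz
    have i1 : HasDerivAt (fun z : ℂ => 1 + I * τ * (1 - z)) (-(I * τ)) z := by
      have := (((hasDerivAt_id z).const_sub 1).const_mul (I * (τ : ℂ))).const_add 1
      refine (show HasDerivAt (fun z : ℂ => 1 + I * τ * (1 - z)) _ z from this).congr_deriv ?_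
      ring
    have i3 := ((i1.clog (hsl z hz)).const_mul (ec om)).const_mul (-((4 / T : ℝ) : ℂ))
    rw [hG]
    refine i3.cexp.congr_deriv ?_
    have hTc : (T : ℂ) ≠ 0 := Complex.ofReal_ne_zero.2 hT.ne'
    have hne := Complex.slitPlane_ne_zero (hsl z hz)
    rw [hτ] at hne ⊢
    push_cast at hne ⊢
    field_simp
    ring
  have hGD : DifferentiableOn ℂ G (Metric.ball 0 R) := fun z hz =>
    (hGd z (mem_ball_zero_iff.1 hz)).differentiableAt.differentiableWithinAt
  obtain ⟨g, hg⟩ : ∃ g : ℝ → ℝ, g = fun v => (ec v * deriv G (ec v) * conj (G (ec v))).re :=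
    ⟨_, rfl⟩
  have hmem : ∀ v, ec v ∈ Metric.ball (0 : ℂ) R := fun v => by
    rw [mem_ball_zero_iff, ec_norm]
    exact hR
  have hgc : Continuous g := by
    rw [hg]
    have hdc : ContinuousOn (deriv G) (Metric.ball (0 : ℂ) R) :=
      (hGD.deriv Metric.isOpen_ball).continuousOn
    have c1 := hdc.comp_continuous ec_cont hmem
    have c2 := hGD.continuousOn.comp_continuous ec_cont hmem
    exact Complex.continuous_re.comp ((ec_cont.mul c1).mul (Complex.continuous_conj.comp c2))
  obtain ⟨hpos1, hpos2⟩ := circ_pos hR hGD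
  have hd0 : deriv G 0 ≠ 0 := by
    rw [(hGd 0 (by rw [norm_zero]; linarith)).deriv]
    have h1 : G 0 ≠ 0 := by
      rw [hG]
      exact Complex.exp_ne_zero _
    have h2 := Complex.slitPlane_ne_zero (hsl 0 (by rw [norm_zero]; linarith))
    have h3 : (s : ℂ) ≠ 0 := Complex.ofReal_ne_zero.2 hs.ne'
    have h4 : ec om ≠ 0 := Complex.exp_ne_zero _
    exact mul_ne_zero h1 (div_ne_zero (mul_ne_zero (mul_ne_zero (mul_ne_zero two_ne_zero h3)
      I_ne_zero) h4) h2)
  have hJ := hpos2 hd0
  have hgint : (∫ v in (0 : ℝ)..(2 * π), (ec v * deriv G (ec v) * conj (G (ec v))).re) =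
      ∫ v in (0 : ℝ)..(2 * π), g v := by rw [hg]
  rw [hgint] at hJ
  -- the modulus
  have hwz : ∀ y, 1 + I * τ * (1 - zz T y) = ww T y s := by
    intro y
    rw [zz_eq, hτ]
    unfold ww
    have := pp_ne T y
    push_cast
    field_simp
    linear_combination (2 * T * s) * Complex.I_sq
  have hmod : ∀ y, EE T om y s = Real.exp (-(4 * Real.sin om * s)) * ‖G (zz T y)‖ ^ 2 := by
    intro y
    rw [hG]
    simp only
    rw [hwz, log_ww, Complex.norm_exp, ← Real.exp_nat_mul, ← Real.exp_add]
    unfold EE Qf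
    congr 1
    have e1 : (-((4 / T : ℝ) : ℂ) * (ec om * (Lc T (y - s) - Lc T y))).re =
        -(4 / T) * ((ec om * Lc T (y - s)).re - (ec om * Lc T y).re) := by
      have : -((4 / T : ℝ) : ℂ) * (ec om * (Lc T (y - s) - Lc T y)) =
          ((-(4 / T) : ℝ) : ℂ) * (ec om * Lc T (y - s) - ec om * Lc T y) := by
        push_cast
        ring
      rw [this, Complex.re_ofReal_mul, Complex.sub_re]
    rw [e1]
    push_cast
    ring
  have hkey : ∀ y, (Real.cos (2 * th T om y) - Real.cos (2 * th T om (y - s))) * EE T om y s =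
      Real.exp (-(4 * Real.sin om * s)) / 2 *
        (g (2 * XX0 T y) * (2 * (T / (1 + (T * y) ^ 2)))) := by
    intro y
    have hzn : ‖zz T y‖ < R := by
      rw [← ec_XX, ec_norm]
      exact hR
    rw [hg]
    simp only
    rw [ec_XX, (hGd _ hzn).deriv, hwz, hmod, cos_th, cos_th, ← Complex.sub_re, ← mul_sub,
      zz_sub]
    have e1 : zz T y * (G (zz T y) * (2 * s * I * ec om / ww T y s)) * conj (G (zz T y)) =
        ((‖G (zz T y)‖ ^ 2 * (1 + (T * y) ^ 2) / T : ℝ) : ℂ) *
          (ec om * (2 * I * (T * s) / (pp T y ^ 2 * ww T y s))) := by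
      have j2 : G (zz T y) * conj (G (zz T y)) = ((‖G (zz T y)‖ ^ 2 : ℝ) : ℂ) := by
        rw [Complex.mul_conj, Complex.normSq_eq_norm_sq]
      have j3 : (T : ℂ) ≠ 0 := Complex.ofReal_ne_zero.2 hT.ne'
      have j4 := pp_ne T y
      have j5 : ww T y s ≠ 0 := by
        rw [← exp_diff]
        exact Complex.exp_ne_zero _
      have j6 : zz T y * pp T y ^ 2 = 1 + (T * y) ^ 2 := by
        unfold zz
        field_simp
        unfold pp
        linear_combination (-1 : ℂ) * Complex.I_sq
      have j7 : zz T y = (1 + (T * y) ^ 2) / pp T y ^ 2 := by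
        rw [eq_div_iff (pow_ne_zero 2 j4)]
        exact j6
      push_cast at j2 ⊢
      rw [← j2]
      generalize G (zz T y) = q at *
      rw [j7]
      field_simp
    rw [e1, Complex.re_ofReal_mul]
    have hTy : 0 < 1 + (T * y) ^ 2 := by positivity
    field_simp
  have hXc := XX0_cont T
  have hXd : ∀ y, HasDerivAt (fun y => 2 * XX0 T y) (2 * (T / (1 + (T * y) ^ 2))) y := by
    intro y
    have h := (XX0_deriv T y).const_mul 2
    refine h.congr_deriv ?_
    rw [sin_XX0]
    ring
  have hsub : ∀ N : ℝ, ∫ y in (-N)..N,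
      (Real.cos (2 * th T om y) - Real.cos (2 * th T om (y - s))) * EE T om y s =
      Real.exp (-(4 * Real.sin om * s)) / 2 *
        ∫ v in (2 * XX0 T (-N))..(2 * XX0 T N), g v := by
    intro N
    have h1 := intervalIntegral.integral_comp_mul_deriv (a := -N) (b := N)
      (f := fun y => 2 * XX0 T y) (f' := fun y => 2 * (T / (1 + (T * y) ^ 2))) (g := g)
      (fun x _ => hXd x) (by
        refine Continuous.continuousOn ?_
        refine continuous_const.mul (continuous_const.div (by fun_prop) fun y => ?_)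
        positivity) hgc
    rw [← h1, ← intervalIntegral.integral_const_mul]
    apply intervalIntegral.integral_congr
    intro y _
    exact hkey y
  refine ⟨Real.exp (-(4 * Real.sin om * s)) / 2 * ∫ v in (0 : ℝ)..(2 * π), g v, ?_, ?_⟩
  · have := Real.exp_pos (-(4 * Real.sin om * s))
    positivity
  · simp only [hsub]
    refine Tendsto.const_mul _ ?_
    have hprim : Continuous fun x => ∫ v in (0 : ℝ)..x, g v :=
      intervalIntegral.continuous_primitive (fun _ _ => hgc.intervalIntegrable _ _) 0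
    have h1 : Tendsto (fun N => 2 * XX0 T N) atTop (𝓝 (2 * π)) := by
      have h := ((tendsto_nhds_of_tendsto_nhdsWithin Real.tendsto_arctan_atTop).comp
        (tendsto_id.const_mul_atTop hT)).add_const (π / 2)
      rw [add_halves] at h
      exact h.const_mul 2
    have h2 : Tendsto (fun N => 2 * XX0 T (-N)) atTop (𝓝 (2 * 0)) := by
      have h := ((tendsto_nhds_of_tendsto_nhdsWithin Real.tendsto_arctan_atBot).comp
        (tendsto_id.const_mul_atBot hT)).add_const (π / 2)
      rw [neg_add_cancel] at h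
      exact (h.comp tendsto_neg_atTop_atBot).const_mul 2
    rw [mul_zero] at h2
    have h3 := ((hprim.tendsto (2 * π)).comp h1).sub ((hprim.tendsto 0).comp h2)
    rw [intervalIntegral.integral_same, sub_zero] at h3
    refine h3.congr fun N => ?_
    simp only [Function.comp_apply]
    rw [intervalIntegral.integral_interval_sub_left (hgc.intervalIntegrable _ _)
      (hgc.intervalIntegrable _ _)]

end NBRo

end

end Pool.Agent.SLE
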