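import Pool.Agent.Lib.MP_c17912_pr_NB.RB

/-!
# MP_c17912_pr, project TC, NB for rank one: integration over the line and the time
-/

set_option autoImplicit false

open MeasureTheory Filter Set
open scoped Topology Real

namespace Pool.Agent.SLE

noncomputable section

namespace NBRo

open NBCir TCRO

/-- The oscillating factor. -/
def cc (T om y : ℝ) : ℝ := Real.cos (2 * th T om y) - Real.cos om

/-- The difference of the weights. -/
def DD (T om y s : ℝ) : ℝ := EE T om y s - EE T om (y + s) s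

theorem cc_cont (T om : ℝ) : Continuous (cc T om) := by
  unfold cc
  have := th_cont T om
  fun_prop

theorem cc_le (T om y : ℝ) : |cc T om y| ≤ 2 / ‖pp T y‖ := by
  have h1 : cc T om y = (ec om * (zz T y - 1)).re := by
    unfold cc
    rw [cos_th, mul_sub, mul_one, Complex.sub_re]
    congr 1
    unfold ec
    rw [Complex.exp_ofReal_mul_I_re]
  rw [h1]
  refine (Complex.abs_re_le_norm _).trans ?_
  rw [norm_mul, ec_norm, one_mul, zz_eq]
  have h2 : (1 - 2 * Complex.I / pp T y - 1 : ℂ) = -(2 * Complex.I / pp T y) := by ring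
  rw [h2, norm_neg, norm_div, norm_mul, Complex.norm_I, mul_one]
  simp

theorem cc_two (T om y : ℝ) : |cc T om y| ≤ 2 := by
  refine (cc_le T om y).trans ?_
  have := pp_one T y
  rw [div_le_iff₀ (by linarith)]
  linarith

theorem pp_top {T : ℝ} (hT : 0 < T) : Tendsto (fun y => ‖pp T y‖) atTop atTop := by
  refine tendsto_atTop_mono (f := fun y => T * y) (fun y => ?_) (tendsto_id.const_mul_atTop hT)
  have h := Complex.re_le_norm (pp T y)
  rwa [pp_re] at h

theorem pp_bot {T : ℝ} (hT : 0 < T) : Tendsto (fun y => ‖pp T y‖) atBot atTop := by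
  refine tendsto_atTop_mono (f := fun y => -(T * y)) (fun y => ?_)
    (tendsto_neg_atBot_atTop.comp (tendsto_id.const_mul_atBot hT))
  have h := Complex.abs_re_le_norm (pp T y)
  rw [pp_re] at h
  exact (neg_le_abs _).trans h

theorem cc_top {T : ℝ} (hT : 0 < T) (om : ℝ) : Tendsto (cc T om) atTop (𝓝 0) := by
  refine squeeze_zero_norm (fun y => ?_) ((tendsto_const_nhds (x := (2 : ℝ))).div_atTop
    (pp_top hT))
  rw [Real.norm_eq_abs]
  exact cc_le T om y

theorem cc_bot {T : ℝ} (hT : 0 < T) (om : ℝ) : Tendsto (cc T om) atBot (𝓝 0) := by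
  refine squeeze_zero_norm (fun y => ?_) ((tendsto_const_nhds (x := (2 : ℝ))).div_atTop
    (pp_bot hT))
  rw [Real.norm_eq_abs]
  exact cc_le T om y

theorem small_int {h : ℝ → ℝ} {s ε : ℝ} (hs : 0 ≤ s) {x : ℝ}
    (hh : ∀ y, x ≤ y → y ≤ x + s → |h y| ≤ ε) : |∫ y in x..(x + s), h y| ≤ ε * s := by
  have h1 := intervalIntegral.norm_integral_le_of_norm_le_const (a := x) (b := x + s) (C := ε)
    (f := h) (fun y hy => by
      rw [uIoc_of_le (by linarith)] at hy
      rw [Real.norm_eq_abs]
      exact hh y hy.1.le hy.2)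
  rw [Real.norm_eq_abs, add_sub_cancel_left, abs_of_nonneg hs] at h1
  exact h1

theorem shift_top {h : ℝ → ℝ} (hh : Tendsto h atTop (𝓝 0)) {s : ℝ} (hs : 0 ≤ s) :
    Tendsto (fun N => ∫ y in N..(N + s), h y) atTop (𝓝 0) := by
  rw [Metric.tendsto_atTop] at hh ⊢
  intro ε hε
  obtain ⟨N, hN⟩ := hh (ε / (s + 1)) (by positivity)
  refine ⟨N, fun n hn => ?_⟩
  rw [Real.dist_eq, sub_zero]
  have h1 := small_int (h := h) (ε := ε / (s + 1)) hs (x := n) (fun y hy _ => by
    have := hN y (le_trans hn hy)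
    rw [Real.dist_eq, sub_zero] at this
    exact this.le)
  refine h1.trans_lt ?_
  rw [div_mul_eq_mul_div, div_lt_iff₀ (by positivity)]
  nlinarith

theorem shift_bot {h : ℝ → ℝ} (hh : Tendsto h atBot (𝓝 0)) {s : ℝ} (hs : 0 ≤ s) :
    Tendsto (fun N => ∫ y in (-N)..(-N + s), h y) atTop (𝓝 0) := by
  rw [Metric.tendsto_nhds] at hh
  rw [Metric.tendsto_atTop]
  intro ε hε
  obtain ⟨M, hM⟩ := eventually_atBot.1 (hh (ε / (s + 1)) (by positivity))
  refine ⟨s - M, fun n hn => ?_⟩
  rw [Real.dist_eq, sub_zero]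
  have h1 := small_int (h := h) (ε := ε / (s + 1)) hs (x := -n) (fun y _ hy => by
    have := hM y (by linarith)
    rw [Real.dist_eq, sub_zero] at this
    exact this.le)
  refine h1.trans_lt ?_
  rw [div_mul_eq_mul_div, div_lt_iff₀ (by positivity)]
  nlinarith

/-- The bound of the difference, as a function of the time. -/
def KK (T om s : ℝ) : ℝ :=
  (8 / T * (4 * (Real.log (1 + T * s) + π)) * (2 * Bd T om s)) * (T * s) ^ 2

theorem DD_le {T : ℝ} (hT : 0 < T) (om : ℝ) {y s : ℝ} (hs : 0 ≤ s) :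
    |DD T om y s| ≤ KK T om s * (1 + (T * y) ^ 2)⁻¹ := by
  refine (EE_diff hT om hs).trans (le_of_eq ?_)
  unfold KK
  rw [add_comm 1]
  ring

theorem inv_int {T : ℝ} (hT : 0 < T) : Integrable fun y : ℝ => (1 + (T * y) ^ 2)⁻¹ :=
  integrable_inv_one_add_sq.comp_mul_left' hT.ne'

theorem DD_cont {T : ℝ} (hT : 0 < T) (om : ℝ) :
    Continuous fun p : ℝ × ℝ => DD T om p.1 p.2 := by
  have h := Qf_cont hT om
  unfold DD EE
  have h1 : Continuous fun p : ℝ × ℝ => Qf T om p.1 := h.comp continuous_fst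
  have h2 : Continuous fun p : ℝ × ℝ => Qf T om (p.1 - p.2) :=
    h.comp (continuous_fst.sub continuous_snd)
  have h3 : Continuous fun p : ℝ × ℝ => Qf T om (p.1 + p.2) :=
    h.comp (continuous_fst.add continuous_snd)
  have h4 : Continuous fun p : ℝ × ℝ => Qf T om (p.1 + p.2 - p.2) :=
    h.comp ((continuous_fst.add continuous_snd).sub continuous_snd)
  exact ((h1.sub h2).rexp).sub ((h3.sub h4).rexp)

theorem fix_int {T : ℝ} (hT : 0 < T) (om : ℝ) {s : ℝ} (hs : 0 ≤ s) :
    Integrable fun y => cc T om y * DD T om y s := by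
  have h1 := (inv_int hT).const_mul (2 * KK T om s)
  refine h1.mono' ?_ (Eventually.of_forall fun y => ?_)
  · exact ((cc_cont T om).mul ((DD_cont hT om).comp
      (continuous_id.prodMk continuous_const))).aestronglyMeasurable
  · rw [Real.norm_eq_abs, abs_mul]
    have h2 := cc_two T om y
    have h3 := DD_le hT om (y := y) hs
    calc |cc T om y| * |DD T om y s| ≤ 2 * (KK T om s * (1 + (T * y) ^ 2)⁻¹) :=
          mul_le_mul h2 h3 (abs_nonneg _) (by norm_num)
      _ = _ := by ring

/-- Positivity for a fixed time. -/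
theorem line_pos {T : ℝ} (hT : 0 < T) (om : ℝ) {s : ℝ} (hs : 0 < s) :
    0 < ∫ y, cc T om y * DD T om y s := by
  obtain ⟨J, hJ, hlim⟩ := line_circ hT om hs
  have hcc := cc_cont T om
  have hE := EE_cont hT om s
  obtain ⟨h, hh⟩ : ∃ h : ℝ → ℝ, h = fun y => cc T om (y - s) * EE T om y s := ⟨_, rfl⟩
  have hhc : Continuous h := by
    rw [hh]
    exact (hcc.comp (continuous_id.sub continuous_const)).mul hE
  have hB : ∀ y, |h y| ≤ |cc T om (y - s)| * Bd T om s := by
    intro y
    rw [hh]
    simp only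
    rw [abs_mul, abs_of_pos (EE_pos T om y s)]
    exact mul_le_mul_of_nonneg_left (EE_le hT om hs.le) (abs_nonneg _)
  have h1 := intervalIntegral_tendsto_integral (fix_int hT om hs.le) tendsto_neg_atTop_atBot
    (tendsto_id (α := ℝ) (x := atTop))
  have htop : Tendsto h atTop (𝓝 0) := by
    refine squeeze_zero_norm (fun y => (Real.norm_eq_abs _).trans_le (hB y)) ?_
    have h2 : Tendsto (fun y => |cc T om (y - s)| * Bd T om s) atTop (𝓝 (|0| * Bd T om s)) :=
      (((cc_top hT om).comp (tendsto_atTop_add_const_right _ (-s) tendsto_id)).abs).mul_const _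
    simpa using h2
  have hbot : Tendsto h atBot (𝓝 0) := by
    refine squeeze_zero_norm (fun y => (Real.norm_eq_abs _).trans_le (hB y)) ?_
    have h2 : Tendsto (fun y => |cc T om (y - s)| * Bd T om s) atBot (𝓝 (|0| * Bd T om s)) :=
      (((cc_bot hT om).comp (tendsto_atBot_add_const_right _ (-s) tendsto_id)).abs).mul_const _
    simpa using h2
  have h2 := (hlim.add (shift_bot hbot hs.le)).sub (shift_top htop hs.le)
  have h3 : ∀ N : ℝ, ∫ y in (-N)..N, cc T om y * DD T om y s =
      (∫ y in (-N)..N,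
        (Real.cos (2 * th T om y) - Real.cos (2 * th T om (y - s))) * EE T om y s) +
      (∫ y in (-N)..(-N + s), h y) - ∫ y in N..(N + s), h y := by
    intro N
    have hi : ∀ u v : ℝ, IntervalIntegrable h volume u v := fun u v =>
      hhc.intervalIntegrable _ _
    have c1 : Continuous fun y => cc T om y * EE T om y s := hcc.mul hE
    have c2 : Continuous fun y => h (y + s) := hhc.comp (continuous_id.add continuous_const)
    have e1 : ∫ y in (-N)..N, cc T om y * DD T om y s =
        (∫ y in (-N)..N, cc T om y * EE T om y s) - ∫ y in (-N)..N, h (y + s) := by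
      rw [← intervalIntegral.integral_sub (c1.intervalIntegrable _ _)
        (c2.intervalIntegrable _ _)]
      apply intervalIntegral.integral_congr
      intro y _
      rw [hh]
      simp only
      rw [add_sub_cancel_right]
      unfold DD
      ring
    have e2 : ∫ y in (-N)..N, h (y + s) = ∫ y in (-N + s)..(N + s), h y :=
      intervalIntegral.integral_comp_add_right h s
    have e3 : ∫ y in (-N + s)..(N + s), h y = (∫ y in (-N)..N, h y) -
        (∫ y in (-N)..(-N + s), h y) + ∫ y in N..(N + s), h y := by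
      have i1 := intervalIntegral.integral_add_adjacent_intervals (hi (-N) (-N + s))
        (hi (-N + s) (N + s))
      have i2 := intervalIntegral.integral_add_adjacent_intervals (hi (-N) N) (hi N (N + s))
      linarith
    have e4 : (∫ y in (-N)..N, cc T om y * EE T om y s) - ∫ y in (-N)..N, h y =
        ∫ y in (-N)..N,
        (Real.cos (2 * th T om y) - Real.cos (2 * th T om (y - s))) * EE T om y s := by
      rw [← intervalIntegral.integral_sub (c1.intervalIntegrable _ _)
        (hhc.intervalIntegrable _ _)]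
      apply intervalIntegral.integral_congr
      intro y _
      rw [hh]
      simp only
      unfold cc
      ring
    rw [e1, e2, e3, ← e4]
    ring
  have h4 : Tendsto (fun N : ℝ => ∫ y in (-N)..N, cc T om y * DD T om y s) atTop
      (𝓝 (J + 0 - 0)) := by
    refine h2.congr fun N => ?_
    exact (h3 N).symm
  have h5 := tendsto_nhds_unique h1 h4
  rw [h5]
  linarith

/-- Exponential decay. -/
theorem KK_le {T om : ℝ} (hT : 0 < T) (hom : 0 < Real.sin om) :
    ∃ C : ℝ, 0 ≤ C ∧ ∀ s, 0 ≤ s → KK T om s ≤ C * Real.exp (-(2 * Real.sin om) * s) := by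
  obtain ⟨k, hk⟩ : ∃ k, k = Real.sin om := ⟨_, rfl⟩
  rw [← hk] at hom
  obtain ⟨C1, hC1⟩ : ∃ C1, C1 = 8 / T * (k / 8 - 1 - Real.log (k / 8) + π) := ⟨_, rfl⟩
  obtain ⟨C2, hC2⟩ : ∃ C2, C2 = 8 / T * 4 * 2 * Real.exp C1 * (T ^ 2 * (T * (6 / k ^ 3) +
    π * (2 / k ^ 2))) := ⟨_, rfl⟩
  have hpi := Real.pi_pos
  refine ⟨C2, by rw [hC2]; positivity, fun s hs => ?_⟩
  have hTs : 0 ≤ T * s := by positivity
  have hlog0 : 0 ≤ Real.log (1 + T * s) := Real.log_nonneg (by linarith)
  have h1 : Real.log (1 + T * s) ≤ (1 + T * s) * (k / 8) - 1 - Real.log (k / 8) := by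
    have h := Real.log_le_sub_one_of_pos (show 0 < (1 + T * s) * (k / 8) by positivity)
    rw [Real.log_mul (by positivity) (by positivity)] at h
    linarith
  have h2 : Bd T om s ≤ Real.exp C1 * Real.exp (-(3 * k) * s) := by
    unfold Bd
    rw [← Real.exp_add, Real.exp_le_exp, ← hk]
    have h3 : 8 / T * (Real.log (1 + T * s) + π) ≤
        8 / T * ((1 + T * s) * (k / 8) - 1 - Real.log (k / 8) + π) := by
      refine mul_le_mul_of_nonneg_left (by linarith) (by positivity)
    have h4 : 8 / T * ((1 + T * s) * (k / 8) - 1 - Real.log (k / 8) + π) = C1 + k * s := by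
      rw [hC1]
      field_simp
      ring
    linarith
  have h3 : Real.log (1 + T * s) ≤ T * s := by
    have := Real.log_le_sub_one_of_pos (show 0 < 1 + T * s by positivity)
    linarith
  have hks : 0 ≤ k * s := by positivity
  have h4 : (k * s) ^ 3 ≤ 6 * Real.exp (k * s) := by
    have := Real.pow_div_factorial_le_exp (k * s) hks 3
    rw [div_le_iff₀ (by positivity)] at this
    have e : ((Nat.factorial 3 : ℕ) : ℝ) = 6 := by norm_num [Nat.factorial]
    rw [e] at this
    linarith
  have h5 : (k * s) ^ 2 ≤ 2 * Real.exp (k * s) := by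
    have := Real.pow_div_factorial_le_exp (k * s) hks 2
    rw [div_le_iff₀ (by positivity)] at this
    have e : ((Nat.factorial 2 : ℕ) : ℝ) = 2 := by norm_num [Nat.factorial]
    rw [e] at this
    linarith
  have h6 : (Real.log (1 + T * s) + π) * (T * s) ^ 2 ≤
      T ^ 2 * (T * (6 / k ^ 3) + π * (2 / k ^ 2)) * Real.exp (k * s) := by
    have e1 : s ^ 3 ≤ 6 / k ^ 3 * Real.exp (k * s) := by
      rw [div_mul_eq_mul_div, le_div_iff₀ (by positivity)]
      calc s ^ 3 * k ^ 3 = (k * s) ^ 3 := by ring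
        _ ≤ _ := h4
    have e2 : s ^ 2 ≤ 2 / k ^ 2 * Real.exp (k * s) := by
      rw [div_mul_eq_mul_div, le_div_iff₀ (by positivity)]
      calc s ^ 2 * k ^ 2 = (k * s) ^ 2 := by ring
        _ ≤ _ := h5
    calc (Real.log (1 + T * s) + π) * (T * s) ^ 2 ≤ (T * s + π) * (T * s) ^ 2 :=
          mul_le_mul_of_nonneg_right (by linarith) (by positivity)
      _ = T ^ 2 * (T * s ^ 3 + π * s ^ 2) := by ring
      _ ≤ T ^ 2 * (T * (6 / k ^ 3 * Real.exp (k * s)) + π * (2 / k ^ 2 * Real.exp (k * s))) := by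
          gcongr
      _ = _ := by ring
  have hBd0 : 0 ≤ Bd T om s := (Real.exp_pos _).le
  unfold KK
  calc 8 / T * (4 * (Real.log (1 + T * s) + π)) * (2 * Bd T om s) * (T * s) ^ 2 =
        8 / T * 4 * 2 * ((Real.log (1 + T * s) + π) * (T * s) ^ 2) * Bd T om s := by ring
    _ ≤ 8 / T * 4 * 2 * (T ^ 2 * (T * (6 / k ^ 3) + π * (2 / k ^ 2)) * Real.exp (k * s)) *
        (Real.exp C1 * Real.exp (-(3 * k) * s)) := by
        refine mul_le_mul (mul_le_mul_of_nonneg_left h6 (by positivity)) h2 hBd0 (by positivity)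
    _ = C2 * (Real.exp (k * s) * Real.exp (-(3 * k) * s)) := by rw [hC2]; ring
    _ = C2 * Real.exp (-(2 * Real.sin om) * s) := by
        rw [← Real.exp_add, ← hk]
        congr 2
        ring

/-- The total integral. -/
theorem line_total {T om : ℝ} (hT : 0 < T) (hom : 0 < Real.sin om) {P : ℝ → ℝ}
    (hP : ∀ y, P y = ∫ s in Ioi (0 : ℝ), DD T om y s) :
    0 < ∫ y, cc T om y * P y := by
  obtain ⟨C, hC, hK⟩ := KK_le hT hom
  have hexp : IntegrableOn (fun s : ℝ => C * Real.exp (-(2 * Real.sin om) * s)) (Ioi 0) :=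
    (exp_neg_integrableOn_Ioi 0 (by positivity)).const_mul C
  have hprod : Integrable (Function.uncurry fun y s => cc T om y * DD T om y s)
      (volume.prod (volume.restrict (Ioi (0 : ℝ)))) := by
    have h1 := ((inv_int hT).const_mul 2).mul_prod hexp
    refine h1.mono' ?_ ?_
    · refine Continuous.aestronglyMeasurable ?_
      exact ((cc_cont T om).comp continuous_fst).mul (DD_cont hT om)
    · have h2 : ∀ᵐ p ∂((volume : Measure ℝ).prod (volume.restrict (Ioi (0 : ℝ)))),
          p.2 ∈ Ioi (0 : ℝ) := by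
        have h3 : ∀ᵐ s ∂(volume.restrict (Ioi (0 : ℝ))), s ∈ Ioi (0 : ℝ) :=
          ae_restrict_mem measurableSet_Ioi
        exact Measure.quasiMeasurePreserving_snd.ae h3
      filter_upwards [h2] with p hp
      have hs : 0 ≤ p.2 := (show (0 : ℝ) < p.2 from hp).le
      change ‖cc T om p.1 * DD T om p.1 p.2‖ ≤ _
      rw [Real.norm_eq_abs, abs_mul]
      have h4 := cc_two T om p.1
      have h5 := DD_le hT om (y := p.1) hs
      have h6 := hK p.2 hs
      have h7 : 0 ≤ (1 + (T * p.1) ^ 2)⁻¹ := by positivity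
      calc |cc T om p.1| * |DD T om p.1 p.2| ≤ 2 * (KK T om p.2 * (1 + (T * p.1) ^ 2)⁻¹) :=
            mul_le_mul h4 h5 (abs_nonneg _) (by norm_num)
        _ ≤ 2 * ((C * Real.exp (-(2 * Real.sin om) * p.2)) * (1 + (T * p.1) ^ 2)⁻¹) := by
            have := mul_le_mul_of_nonneg_right h6 h7
            linarith
        _ = _ := by ring
  have h1 : ∫ y, cc T om y * P y = ∫ y, ∫ s in Ioi (0 : ℝ), cc T om y * DD T om y s := by
    apply integral_congr_ae
    refine Eventually.of_forall fun y => ?_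
    simp only
    rw [hP y, integral_const_mul]
  rw [h1, integral_integral_swap hprod]
  have h2 := hprod.integral_prod_right
  have h3 : ∀ᵐ s ∂(volume.restrict (Ioi (0 : ℝ))), 0 ≤ ∫ y, cc T om y * DD T om y s := by
    filter_upwards [ae_restrict_mem measurableSet_Ioi] with s hs
    exact (line_pos hT om hs).le
  rw [integral_pos_iff_support_of_nonneg_ae h3 h2]
  have h4 : Ioi (0 : ℝ) ⊆ Function.support fun s => ∫ y, cc T om y * DD T om y s :=
    fun s hs => (line_pos hT om hs).ne'
  refine lt_of_lt_of_le ?_ (measure_mono h4)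
  rw [Measure.restrict_apply_self, Real.volume_Ioi]
  exact ENNReal.coe_lt_top

end NBRo

end

end Pool.Agent.SLE
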