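import Pool.Agent.Lib.MP_c17912_pr_NB.RC
import Pool.Agent.Lib.MP_c17912_pr_TC.ANG
import Pool.Agent.Lib.MP_c17912_pr_TC.ROD

/-!
# MP_c17912_pr, project TC, NB for rank one: not both drifts are nonpositive
-/

set_option autoImplicit false

open MeasureTheory Filter Set
open scoped Topology Real

namespace Pool.Agent.SLE

noncomputable section

namespace NBRo

open NBCir TCRO

/-- Decay of the bound. -/
theorem Bd_lim {T om : ℝ} (hT : 0 < T) (hom : 0 < Real.sin om) :
    Tendsto (Bd T om) atTop (𝓝 0) := by
  obtain ⟨k, hk⟩ : ∃ k, k = Real.sin om := ⟨_, rfl⟩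
  rw [← hk] at hom
  obtain ⟨C1, hC1⟩ : ∃ C1, C1 = 8 / T * (k / 8 - 1 - Real.log (k / 8) + π) := ⟨_, rfl⟩
  have h0 : Tendsto (fun s : ℝ => Real.exp (C1 + -(3 * k) * s)) atTop (𝓝 0) := by
    refine Real.tendsto_exp_atBot.comp ?_
    refine tendsto_atBot_add_const_left _ C1 ?_
    exact tendsto_id.const_mul_atTop_of_neg (by linarith)
  refine squeeze_zero' (Eventually.of_forall fun s => (Real.exp_pos _).le) ?_ h0
  filter_upwards [eventually_ge_atTop 0] with s hs
  have hTs : 0 ≤ T * s := by positivity
  have h1 : Real.log (1 + T * s) ≤ (1 + T * s) * (k / 8) - 1 - Real.log (k / 8) := by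
    have h := Real.log_le_sub_one_of_pos (show 0 < (1 + T * s) * (k / 8) by positivity)
    rw [Real.log_mul (by positivity) (by positivity)] at h
    linarith
  unfold Bd
  rw [Real.exp_le_exp, ← hk]
  have h3 : 8 / T * (Real.log (1 + T * s) + π) ≤
      8 / T * ((1 + T * s) * (k / 8) - 1 - Real.log (k / 8) + π) := by
    refine mul_le_mul_of_nonneg_left (by linarith) (by positivity)
  have h4 : 8 / T * ((1 + T * s) * (k / 8) - 1 - Real.log (k / 8) + π) = C1 + k * s := by
    rw [hC1]
    field_simp
    ring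
  linarith

/-- The stationary density as an integral. -/
theorem repr_fwd {T om : ℝ} (hT : 0 < T) (hom : 0 < Real.sin om) {R : ℝ → ℝ} {M : ℝ}
    (hb : ∀ y, |R y| ≤ M)
    (hR : ∀ y, HasDerivAt R (1 - 4 * Real.sin (2 * th T om y) * R y) y) (y : ℝ) :
    IntegrableOn (fun s => EE T om y s) (Ioi 0) ∧ ∫ s in Ioi (0 : ℝ), EE T om y s = R y := by
  have hd : ∀ s ∈ Ici (0 : ℝ), HasDerivAt (fun s => -(EE T om y s * R (y - s))) (EE T om y s)
      s := by
    intro s _
    have h0 : HasDerivAt (fun s : ℝ => y - s) (-1) s := by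
      simpa using (hasDerivAt_id s).const_sub y
    have h1 := (Qf_deriv hT om (y - s)).comp s h0
    have h2 : HasDerivAt (fun s => EE T om y s) _ s := (h1.const_sub (Qf T om y)).exp
    have h3 := (hR (y - s)).comp s h0
    refine (show HasDerivAt (fun s => -(EE T om y s * R (y - s))) _ s from
      (h2.mul h3).neg).congr_deriv ?_
    simp only [Function.comp_apply]
    unfold EE
    ring
  have hl : Tendsto (fun s => -(EE T om y s * R (y - s))) atTop (𝓝 0) := by
    have h1 : Tendsto (fun s => Bd T om s * M) atTop (𝓝 (0 * M)) :=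
      (Bd_lim hT hom).mul_const M
    rw [zero_mul] at h1
    refine squeeze_zero_norm' ?_ h1
    filter_upwards [eventually_ge_atTop 0] with s hs
    rw [norm_neg, norm_mul, Real.norm_eq_abs, Real.norm_eq_abs, abs_of_pos (EE_pos T om y s)]
    exact mul_le_mul (EE_le hT om hs) (hb _) (abs_nonneg _) (Real.exp_pos _).le
  have h1 := integrableOn_Ioi_deriv_of_nonneg' hd (fun s _ => (EE_pos T om y s).le) hl
  have h2 := integral_Ioi_of_hasDerivAt_of_nonneg' hd (fun s _ => (EE_pos T om y s).le) hl
  refine ⟨h1, ?_⟩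
  rw [h2]
  unfold EE
  simp

/-- The dual density as an integral. -/
theorem repr_bwd {T om : ℝ} (hT : 0 < T) (hom : 0 < Real.sin om) {F : ℝ → ℝ} {M : ℝ}
    (hb : ∀ y, |F y| ≤ M)
    (hF : ∀ y, HasDerivAt F (-1 + 4 * Real.sin (2 * th T om y) * F y) y) (y : ℝ) :
    IntegrableOn (fun s => EE T om (y + s) s) (Ioi 0) ∧
      ∫ s in Ioi (0 : ℝ), EE T om (y + s) s = F y := by
  have he : ∀ s, EE T om (y + s) s = Real.exp (Qf T om (y + s) - Qf T om y) := by
    intro s
    unfold EE
    rw [add_sub_cancel_right]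
  have hd : ∀ s ∈ Ici (0 : ℝ), HasDerivAt (fun s => -(EE T om (y + s) s * F (y + s)))
      (EE T om (y + s) s) s := by
    intro s _
    have h0 : HasDerivAt (fun s : ℝ => y + s) 1 s := by
      simpa using (hasDerivAt_id s).const_add y
    have h1 := (Qf_deriv hT om (y + s)).comp s h0
    have h2 := (h1.sub_const (Qf T om y)).exp
    have h3 := (hF (y + s)).comp s h0
    have h4 := (h2.mul h3).neg
    simp only [he]
    refine (show HasDerivAt (fun s => -(Real.exp (Qf T om (y + s) - Qf T om y) * F (y + s))) _ s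
      from h4).congr_deriv ?_
    simp only [Function.comp_apply]
    ring
  have hl : Tendsto (fun s => -(EE T om (y + s) s * F (y + s))) atTop (𝓝 0) := by
    have h1 : Tendsto (fun s => Bd T om s * M) atTop (𝓝 (0 * M)) :=
      (Bd_lim hT hom).mul_const M
    rw [zero_mul] at h1
    refine squeeze_zero_norm' ?_ h1
    filter_upwards [eventually_ge_atTop 0] with s hs
    rw [norm_neg, norm_mul, Real.norm_eq_abs, Real.norm_eq_abs,
      abs_of_pos (EE_pos T om (y + s) s)]
    exact mul_le_mul (EE_le hT om hs) (hb _) (abs_nonneg _) (Real.exp_pos _).le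
  have h1 := integrableOn_Ioi_deriv_of_nonneg' hd (fun s _ => (EE_pos T om (y + s) s).le) hl
  have h2 := integral_Ioi_of_hasDerivAt_of_nonneg' hd (fun s _ => (EE_pos T om (y + s) s).le) hl
  refine ⟨h1, ?_⟩
  rw [h2]
  unfold EE
  simp

/-- Positivity on the line. -/
theorem line_final {T om : ℝ} (hT : 0 < T) (hom : 0 < Real.sin om) {R F : ℝ → ℝ} {M : ℝ}
    (hbR : ∀ y, |R y| ≤ M) (hbF : ∀ y, |F y| ≤ M)
    (hR : ∀ y, HasDerivAt R (1 - 4 * Real.sin (2 * th T om y) * R y) y)
    (hF : ∀ y, HasDerivAt F (-1 + 4 * Real.sin (2 * th T om y) * F y) y) :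
    0 < ∫ y, cc T om y * (R y - F y) := by
  refine line_total hT hom fun y => ?_
  obtain ⟨h1, h2⟩ := repr_fwd hT hom hbR hR y
  obtain ⟨h3, h4⟩ := repr_bwd hT hom hbF hF y
  unfold DD
  rw [integral_sub h1 h3, h2, h4]

theorem th_image {T om : ℝ} (hT : 0 < T) :
    th T om '' univ = Ioo (om / 2) (om / 2 + π) := by
  rw [image_univ]
  ext x
  constructor
  · rintro ⟨y, rfl⟩
    have h1 := Real.arctan_lt_pi_div_two (T * y)
    have h2 := Real.neg_pi_div_two_lt_arctan (T * y)
    unfold th XX0
    constructor <;> linarith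
  · rintro ⟨h1, h2⟩
    refine ⟨Real.tan (x - om / 2 - π / 2) / T, ?_⟩
    unfold th XX0
    rw [mul_div_cancel₀ _ hT.ne', Real.arctan_tan (by linarith) (by linarith)]
    ring

theorem th_inj {T om : ℝ} (hT : 0 < T) : InjOn (th T om) univ := by
  intro x _ y _ h
  unfold th XX0 at h
  have h1 : Real.arctan (T * x) = Real.arctan (T * y) := by linarith
  have h2 := Real.arctan_injective h1
  exact mul_left_cancel₀ hT.ne' h2

/-- The case of a positive correlation. -/
theorem pos_case {a b c k1 k2 : ℝ} {ρ f : ℝ → ℝ} (ha : 0 < a) (h0 : 0 < c)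
    (hc : c ^ 2 = a * b) (rs : ∀ n : ℕ, ContDiff ℝ n ρ) (rp : Function.Periodic ρ π)
    (rpos : ∀ x, 0 < ρ x)
    (req : ∀ x, Vth a b c x / 2 * deriv ρ x + 2 * Real.sin (2 * x) * ρ x = k1)
    (fs : ∀ n : ℕ, ContDiff ℝ n f) (fp : Function.Periodic f π) (fpos : ∀ x, 0 < f x)
    (feq : ∀ x, Vth a b c x / 2 * deriv f x - 2 * Real.sin (2 * x) * f x = k2) :
    0 < mF a b c ρ ∨ 0 < mB a b c f := by
  have hb := TCROD.b_pos ha h0.ne' hc
  obtain ⟨T, hTe⟩ : ∃ T, T = a + b := ⟨_, rfl⟩
  have hT : 0 < T := by rw [hTe]; linarith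
  obtain ⟨om, hom⟩ : ∃ om, om = 2 * TCROD.ph0 a c := ⟨_, rfl⟩
  have hom2 : om / 2 = TCROD.ph0 a c := by rw [hom]; ring
  have hs1 : T * Real.sin om = 2 * c := by
    rw [hom, hTe]
    exact TCROD.sin_two ha hc
  have hs2 : T * Real.cos om = a - b := by
    have h1 := TCROD.cos_ph ha hc
    rw [hom, Real.cos_two_mul, hTe]
    linear_combination 2 * h1
  have hsin : 0 < Real.sin om := by
    have : 0 < T * Real.sin om := by rw [hs1]; linarith
    exact (mul_pos_iff_of_pos_left hT).1 this
  have hV : ∀ x, Vth a b c x = T * Real.sin (x - om / 2) ^ 2 := by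
    intro x
    rw [hom2, hTe]
    exact TCROD.V_eq ha hc x
  have hVth : ∀ y, Vth a b c (th T om y) = T / (1 + (T * y) ^ 2) := by
    intro y
    rw [hV]
    unfold th
    rw [add_sub_cancel_left, sin_XX0]
    ring
  have hk1 : 0 < k1 := by
    have h1 := req (om / 2)
    rw [hV, sub_self, Real.sin_zero, show 2 * (om / 2) = om by ring] at h1
    have := rpos (om / 2)
    rw [← h1]
    have : 0 < Real.sin om * ρ (om / 2) := by positivity
    linarith
  have hk2 : k2 < 0 := by
    have h1 := feq (om / 2)
    rw [hV, sub_self, Real.sin_zero, show 2 * (om / 2) = om by ring] at h1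
    have := fpos (om / 2)
    rw [← h1]
    have : 0 < Real.sin om * f (om / 2) := by positivity
    linarith
  -- normalised densities
  obtain ⟨r, hr⟩ : ∃ r : ℝ → ℝ, r = fun x => ρ x / (2 * k1) := ⟨_, rfl⟩
  obtain ⟨g, hg⟩ : ∃ g : ℝ → ℝ, g = fun x => f x / (-(2 * k2)) := ⟨_, rfl⟩
  have hk1' : 2 * k1 ≠ 0 := by positivity
  have hk2' : -(2 * k2) ≠ 0 := by
    have : 0 < -(2 * k2) := by linarith
    exact this.ne'
  have hrs : ∀ n : ℕ, ContDiff ℝ n r := fun n => by
    rw [hr]
    exact (rs n).div_const _
  have hgs : ∀ n : ℕ, ContDiff ℝ n g := fun n => by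
    rw [hg]
    exact (fs n).div_const _
  have hrp : Function.Periodic r π := fun x => by
    rw [hr]
    simp only
    rw [rp x]
  have hgp : Function.Periodic g π := fun x => by
    rw [hg]
    simp only
    rw [fp x]
  have hrd : ∀ x, deriv r x = deriv ρ x / (2 * k1) := fun x => by
    rw [hr]
    exact ((TRSGN.hd rs x).div_const _).deriv
  have hgd : ∀ x, deriv g x = deriv f x / (-(2 * k2)) := fun x => by
    rw [hg]
    exact ((TRSGN.hd fs x).div_const _).deriv
  have hreq : ∀ x, Vth a b c x * deriv r x = 1 - 4 * Real.sin (2 * x) * r x := by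
    intro x
    have h1 := req x
    rw [hrd, hr]
    simp only
    field_simp
    linear_combination 2 * h1
  have hgeq : ∀ x, Vth a b c x * deriv g x = -1 + 4 * Real.sin (2 * x) * g x := by
    intro x
    have h1 := feq x
    have h2 : k2 ≠ 0 := hk2.ne
    rw [hgd, hg]
    simp only
    field_simp
    linear_combination -2 * h1
  -- the line
  obtain ⟨M1, hM1⟩ := EXaux.bdd (hrs 0).continuous (TRSGN.per2 hrp)
  obtain ⟨M2, hM2⟩ := EXaux.bdd (hgs 0).continuous (TRSGN.per2 hgp)
  have hline := line_final (T := T) (om := om) hT hsin (R := fun y => r (th T om y))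
    (F := fun y => g (th T om y)) (M := max M1 M2)
    (fun y => (hM1 _).trans (le_max_left _ _)) (fun y => (hM2 _).trans (le_max_right _ _))
    (fun y => by
      refine ((TRSGN.hd hrs _).comp y (th_deriv T om y)).congr_deriv ?_
      rw [← hVth, mul_comm, hreq])
    (fun y => by
      refine ((TRSGN.hd hgs _).comp y (th_deriv T om y)).congr_deriv ?_
      rw [← hVth, mul_comm, hgeq])
  -- the circle
  obtain ⟨q, hq⟩ : ∃ q : ℝ → ℝ, q = fun x => T * (Real.cos (2 * x) - Real.cos om) /
    Vth a b c x * (r x - g x) := ⟨_, rfl⟩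
  obtain ⟨u, hu⟩ : ∃ u : ℝ → ℝ, u = fun x => 2 * Real.cos (2 * x) * (r x - g x) +
    ((a - b) * Real.sin (2 * x) - 2 * c * Real.cos (2 * x)) / 4 * (deriv r x + deriv g x) :=
    ⟨_, rfl⟩
  have hrc : Continuous r := (hrs 0).continuous
  have hgc : Continuous g := (hgs 0).continuous
  have hr's := TRSGN.sm_deriv hrs
  have hg's := TRSGN.sm_deriv hgs
  have hr'c : Continuous (deriv r) := (hr's 0).continuous
  have hg'c : Continuous (deriv g) := (hg's 0).continuous
  have huc : Continuous u := by
    rw [hu]
    fun_prop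
  have hqu : ∀ x ∈ Ioo (om / 2) (om / 2 + π), q x = u x := by
    intro x hx
    have hsx : 0 < Real.sin (x - om / 2) :=
      Real.sin_pos_of_pos_of_lt_pi (by linarith [hx.1]) (by linarith [hx.2])
    have hVx : Vth a b c x ≠ 0 := by
      rw [hV]
      positivity
    have h1 := hreq x
    have h2 := hgeq x
    have hVd : Vth a b c x = (a + b) / 2 -
        ((a - b) * Real.cos (2 * x) + 2 * c * Real.sin (2 * x)) / 2 := by
      unfold Vth
      rw [Real.sin_two_mul, Real.cos_two_mul']
      have := Real.sin_sq_add_cos_sq x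
      linear_combination (a + b) / 2 * this
    have hsc := Real.sin_sq_add_cos_sq (2 * x)
    rw [hq, hu]
    simp only
    rw [div_mul_eq_mul_div, div_eq_iff hVx]
    obtain ⟨s, hse⟩ : ∃ s, s = Real.sin (2 * x) := ⟨_, rfl⟩
    obtain ⟨t, hte⟩ : ∃ t, t = Real.cos (2 * x) := ⟨_, rfl⟩
    rw [← hse] at h1 h2
    rw [← hse, ← hte] at hVd hsc ⊢
    have h3 : T * (t - Real.cos om) = 2 * t * Vth a b c x - s * ((a - b) * s - 2 * c * t) := by
      rw [hVd, mul_sub, hs2, hTe]
      linear_combination (a - b) * hsc
    rw [h3]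
    linear_combination (-((a - b) * s - 2 * c * t) / 4) * (h1 + h2)
  have himg : ∫ x in Ioo (om / 2) (om / 2 + π), q x =
      T * ∫ y, cc T om y * (r (th T om y) - g (th T om y)) := by
    have h1 := integral_image_eq_integral_abs_deriv_smul (s := univ) (f := th T om)
      (f' := fun y => T / (1 + (T * y) ^ 2)) MeasurableSet.univ
      (fun y _ => (th_deriv T om y).hasDerivWithinAt) (th_inj hT) q
    rw [th_image hT] at h1
    rw [h1, Measure.restrict_univ, ← integral_const_mul]
    apply integral_congr_ae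
    refine Eventually.of_forall fun y => ?_
    have h2 : 0 < T / (1 + (T * y) ^ 2) := by positivity
    simp only [smul_eq_mul]
    rw [abs_of_pos h2, hq]
    simp only
    rw [hVth]
    unfold cc
    field_simp
  have hint : ∫ x in (0 : ℝ)..π, u x = mF a b c r + mB a b c g := by
    have hHc : Continuous (H1 a b c) := (TRSGN.H_smooth a b c 0).continuous
    have hCc : Continuous (Cv a b c) := (TRSGN.C_smooth a b c 0).continuous
    obtain ⟨Φ, hΦ⟩ : ∃ Φ : ℝ → ℝ, Φ = fun x =>
      ((a - b) * Real.sin (2 * x) - 2 * c * Real.cos (2 * x)) / 4 * (r x - g x) := ⟨_, rfl⟩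
    have hd : ∀ x, HasDerivAt Φ (u x - (H1 a b c x * r x -
        (H1 a b c x * g x + Cv a b c x * deriv g x))) x := by
      intro x
      have j0 : HasDerivAt (fun x : ℝ => 2 * x) 2 x := by
        simpa using (hasDerivAt_id x).const_mul (2 : ℝ)
      have j1 := (((j0.sin.const_mul (a - b)).sub (j0.cos.const_mul (2 * c))).div_const 4).mul
        ((TRSGN.hd hrs x).sub (TRSGN.hd hgs x))
      rw [hΦ]
      refine (show HasDerivAt (fun x =>
        ((a - b) * Real.sin (2 * x) - 2 * c * Real.cos (2 * x)) / 4 * (r x - g x)) _ x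
        from j1).congr_deriv ?_
      rw [hu]
      simp only [Pi.sub_apply]
      unfold H1 Cv
      ring
    have hcont : Continuous fun x => H1 a b c x * r x -
        (H1 a b c x * g x + Cv a b c x * deriv g x) := by fun_prop
    have h1 := intervalIntegral.integral_eq_sub_of_hasDerivAt (a := 0) (b := π)
      (fun x _ => hd x) ((huc.sub hcont).intervalIntegrable _ _)
    have h2 : Φ π - Φ 0 = 0 := by
      have h3 := hrp 0
      have h4 := hgp 0
      rw [zero_add] at h3 h4
      rw [hΦ]
      simp only [h3, h4, mul_zero, Real.sin_two_pi, Real.cos_two_pi, Real.sin_zero,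
        Real.cos_zero, sub_self]
    rw [h2, intervalIntegral.integral_sub (huc.intervalIntegrable _ _)
      (hcont.intervalIntegrable _ _)] at h1
    have c1 : Continuous fun x => H1 a b c x * r x := by fun_prop
    have c2 : Continuous fun x => H1 a b c x * g x + Cv a b c x * deriv g x := by fun_prop
    rw [intervalIntegral.integral_sub (c1.intervalIntegrable _ _)
      (c2.intervalIntegrable _ _)] at h1
    unfold mF mB
    linarith
  have hper : Function.Periodic u π := by
    intro x
    rw [hu]
    simp only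
    have e1 : deriv r (x + π) = deriv r x := EXaux.per_deriv hrp x
    have e2 : deriv g (x + π) = deriv g x := EXaux.per_deriv hgp x
    rw [e1, e2, hrp x, hgp x, mul_add, Real.cos_add_two_pi, Real.sin_add_two_pi]
  have hper2 := hper.intervalIntegral_add_eq 0 (om / 2)
  rw [zero_add] at hper2
  have hfin : ∫ x in Ioo (om / 2) (om / 2 + π), q x = mF a b c r + mB a b c g := by
    rw [← hint, hper2, intervalIntegral.integral_of_le (by linarith [Real.pi_pos]),
      integral_Ioc_eq_integral_Ioo]
    exact setIntegral_congr_fun measurableSet_Ioo hqu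
  have hsum : 0 < mF a b c r + mB a b c g := by
    rw [← hfin, himg]
    exact mul_pos hT hline
  have hmF : mF a b c r = mF a b c ρ / (2 * k1) := by
    unfold mF
    rw [← intervalIntegral.integral_div]
    apply intervalIntegral.integral_congr
    intro x _
    rw [hr]
    simp only
    ring
  have hmB : mB a b c g = mB a b c f / (-(2 * k2)) := by
    unfold mB
    rw [neg_div, ← intervalIntegral.integral_div]
    congr 1
    apply intervalIntegral.integral_congr
    intro x _
    simp only
    rw [hgd, hg]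
    ring
  by_contra hcon
  push Not at hcon
  rw [hmF, hmB] at hsum
  have h1 : mF a b c ρ / (2 * k1) ≤ 0 := div_nonpos_of_nonpos_of_nonneg hcon.1 (by positivity)
  have h2 : mB a b c f / (-(2 * k2)) ≤ 0 :=
    div_nonpos_of_nonpos_of_nonneg hcon.2 (by linarith)
  linarith

/-- Reflection of the plane: integrals. -/
theorem refl_int {h : ℝ → ℝ} (hp : Function.Periodic h π) :
    ∫ x in (0 : ℝ)..π, h (-x) = ∫ x in (0 : ℝ)..π, h x := by
  rw [intervalIntegral.integral_comp_neg, neg_zero]
  have h1 := hp.intervalIntegral_add_eq (-π) 0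
  rw [neg_add_cancel, zero_add] at h1
  exact h1

end NBRo

open NBRo in
/-- NB for rank one. The forward and the backward drift are never both nonpositive. -/
theorem not_both_ro {a b c k1 k2 : ℝ} {ρ f : ℝ → ℝ} (ha : 0 < a) (h0 : c ≠ 0)
    (hc : c ^ 2 = a * b) (h : AngD a b c ρ f k1 k2) :
    0 < mF a b c ρ ∨ 0 < mB a b c f := by
  rcases lt_or_gt_of_ne h0 with hneg | hpos
  · -- reflection
    have hV : ∀ x, Vth a b (-c) x = Vth a b c (-x) := by
      intro x
      unfold Vth
      rw [Real.sin_neg, Real.cos_neg]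
      ring
    have hrd : ∀ x, deriv (fun x => ρ (-x)) x = -deriv ρ (-x) := fun x =>
      deriv_comp_neg (f := ρ) x
    have hfd : ∀ x, deriv (fun x => f (-x)) x = -deriv f (-x) := fun x =>
      deriv_comp_neg (f := f) x
    have h2 : ∀ x : ℝ, Real.sin (2 * -x) = -Real.sin (2 * x) := by
      intro x
      rw [mul_neg, Real.sin_neg]
    have h3 : ∀ x : ℝ, Real.cos (2 * -x) = Real.cos (2 * x) := by
      intro x
      rw [mul_neg, Real.cos_neg]
    have key := pos_case (a := a) (b := b) (c := -c) (k1 := -k1) (k2 := -k2)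
      (ρ := fun x => ρ (-x)) (f := fun x => f (-x)) ha (by linarith) (by rw [neg_sq]; exact hc)
      (fun n => (h.rs n).comp contDiff_neg) (fun x => by
        simp only
        have := h.rp (-x - π)
        rw [sub_add_cancel] at this
        rw [neg_add, ← sub_eq_add_neg, ← this]) (fun x => h.rpos _) (fun x => by
        have := h.req (-x)
        rw [hV, hrd]
        rw [h2] at this
        linarith)
      (fun n => (h.fs n).comp contDiff_neg) (fun x => by
        simp only
        have := h.fp (-x - π)
        rw [sub_add_cancel] at this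
        rw [neg_add, ← sub_eq_add_neg, ← this]) (fun x => h.fpos _) (fun x => by
        have := h.feq (-x)
        rw [hV, hfd]
        rw [h2] at this
        linarith)
    have e1 : mF a b (-c) (fun x => ρ (-x)) = mF a b c ρ := by
      have hp : Function.Periodic (fun x => H1 a b c x * ρ x) π := by
        intro x
        simp only
        rw [TRSGN.H_per a b c x, h.rp x]
      have e := refl_int hp
      unfold mF
      rw [← e]
      apply intervalIntegral.integral_congr
      intro x _
      simp only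
      unfold H1
      rw [h2, h3]
      ring
    have e2 : mB a b (-c) (fun x => f (-x)) = mB a b c f := by
      have hf'p : Function.Periodic (deriv f) π := EXaux.per_deriv h.fp
      have hp : Function.Periodic (fun x => H1 a b c x * f x + Cv a b c x * deriv f x) π := by
        intro x
        simp only
        rw [TRSGN.H_per a b c x, h.fp x, TRSGN.C_per a b c x, hf'p x]
      have e := refl_int hp
      unfold mB
      rw [← e]
      congr 1
      apply intervalIntegral.integral_congr
      intro x _
      simp only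
      rw [hfd]
      unfold H1 Cv
      rw [h2, h3]
      ring
    rw [e1, e2] at key
    exact key
  · exact pos_case ha hpos hc h.rs h.rp h.rpos h.req h.fs h.fp h.fpos h.feq

end

end Pool.Agent.SLE
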